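import Mathlib
import Pool.Agent.W90.Swan.FS
import Pool.Agent.W446.AS.Main1

/-!
# The Frobenius–Schur indicator of an irreducible character
-/

set_option autoImplicit false
set_option linter.unusedSectionVars false

namespace Pool.Agent.U398.Art

open Pool.Agent.H302R2 Pool.Agent.H541R3.ART Pool.Agent.W446.AS Pool.Agent.W90.Swan
open scoped TensorProduct

/-- The Frobenius–Schur indicator of a class function `χ`: the mean of `χ (g ^ 2)`. -/
noncomputable def ind {G : Type} [Group G] (χ : G → ℂ) : ℂ :=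
  (∑ᶠ g : G, χ (g ^ 2)) / Nat.card G

section irr

variable {T : Type} [Group T] [Finite T]

/-- virtual characters of norm one and positive degree are irreducible characters -/
lemma irr_of_norm_one {τ : T → ℂ} (hV : Virt τ) (hn : pr τ τ = 1) {d : ℕ} (hd : 0 < d)
    (h1 : τ 1 = d) : τ ∈ Irr T := by
  classical
  choose! l hl using fun ψ (hψ : ψ ∈ Irr T) => hV.pr_int hψ
  have hsum : ∑ ψ ∈ irrF T, l ψ ^ 2 = 1 := by
    have h2 : ∑ ψ ∈ irrF T, pr τ ψ ^ 2 = ((∑ ψ ∈ irrF T, l ψ ^ 2 : ℤ) : ℂ) := by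
      push_cast
      exact Finset.sum_congr rfl fun ψ hψ => by rw [hl ψ (mem_irrF.mp hψ)]
    rw [pr_self_expand hV, h2] at hn
    exact_mod_cast hn
  obtain ⟨ψ, hψF, hψ0⟩ : ∃ ψ ∈ irrF T, l ψ ^ 2 ≠ 0 := by
    by_contra hcon
    push Not at hcon
    rw [Finset.sum_eq_zero hcon] at hsum
    omega
  have hψ := mem_irrF.mp hψF
  have h3 := Finset.add_sum_erase (irrF T) (fun ψ => l ψ ^ 2) hψF
  rw [hsum] at h3
  have h4 : 0 ≤ ∑ ψ ∈ (irrF T).erase ψ, l ψ ^ 2 := Finset.sum_nonneg fun _ _ => sq_nonneg _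
  have h5 : 0 < l ψ ^ 2 := lt_of_le_of_ne (sq_nonneg _) hψ0.symm
  have h6 : l ψ ^ 2 = 1 := by
    omega
  have h7 : ∑ ψ ∈ (irrF T).erase ψ, l ψ ^ 2 = 0 := by
    omega
  have h8 : ∀ φ ∈ (irrF T).erase ψ, l φ = 0 := by
    intro φ hφ
    have := (Finset.sum_eq_zero_iff_of_nonneg fun _ _ => sq_nonneg _).mp h7 φ hφ
    exact pow_eq_zero_iff (two_ne_zero) |>.mp this
  have h9 : ∀ g, τ g = l ψ * ψ g := by
    intro g
    rw [hV.expand g, Finset.sum_eq_single ψ]
    · rw [hl ψ hψ]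
    · intro φ hφ hne
      rw [hl φ (mem_irrF.mp hφ), h8 φ (Finset.mem_erase.mpr ⟨hne, hφ⟩)]; simp
    · intro h; exact absurd hψF h
  obtain ⟨e, he, he1⟩ := irr_deg_pos hψ
  have h10 : l ψ = 1 ∨ l ψ = -1 := by
    have h11 : (l ψ - 1) * (l ψ + 1) = 0 := by linear_combination h6
    rcases mul_eq_zero.mp h11 with h | h
    · left; omega
    · right; omega
  rcases h10 with h | h
  · have : τ = ψ := by
      funext g
      rw [h9, h]; simp
    rw [this]; exact hψ
  · exfalso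
    have h11 := h9 1
    rw [h1, he1, h] at h11
    have h12 : (d : ℤ) = -1 * e := by exact_mod_cast h11
    omega

/-- the dual character -/
lemma irr_inv {χ : T → ℂ} (hχ : χ ∈ Irr T) : (fun g => χ g⁻¹) ∈ Irr T := by
  classical
  have : Fintype T := Fintype.ofFinite T
  obtain ⟨d, hd, hd1⟩ := irr_deg_pos hχ
  obtain ⟨n, ρ, hρ, rfl⟩ := exists_rep hχ
  have hV : Virt (fun g => ρ.character g⁻¹) := by
    have h1 : (fun g => ρ.character g⁻¹) = ρ.dual.character := by
      funext g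
      rw [Representation.char_dual]
    rw [h1]
    exact char_mem _ ρ.dual rfl
  refine irr_of_norm_one hV ?_ hd (by simpa using hd1)
  have h2 := pr_self hχ
  rw [pr_eq] at h2 ⊢
  rw [← h2]
  congr 1
  refine Finset.sum_congr rfl fun g _ => ?_
  simp only [inv_inv]
  ring

end irr

section fs

variable {G : Type} [Group G] [Finite G]

/-- the trichotomy -/
theorem fs_cases [Fintype G] {V : Type*} [AddCommGroup V] [Module ℂ V] [FiniteDimensional ℂ V]
    (ρ : Representation ℂ G V) [hρ : ρ.IsIrreducible] :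
    ∃ ν : ℤ, ∑ g : G, ρ.character (g ^ 2) = (Nat.card G : ℂ) * ν ∧
      ((ν = 0 ∧ ∑ g : G, ρ.character g * ρ.character g = 0) ∨
       ((ν = 1 ∨ ν = -1) ∧ ∑ g : G, ρ.character g * ρ.character g = Nat.card G)) := by
  have hsum : ∀ ν : ℤ, LinearMap.trace ℂ _ (avg2 ρ ∘ₗ swp V) = (ν : ℂ) →
      ∑ g : G, ρ.character (g ^ 2) = (Nat.card G : ℂ) * ν := by
    intro ν h
    rw [trace_avg2_swp] at h
    rw [← h, ← mul_assoc, mul_inv_cancel₀ cardG_ne, one_mul]
  have htr : ∑ g : G, ρ.character g * ρ.character g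
      = (Nat.card G : ℂ) * (Module.finrank ℂ (LinearMap.range (avg2 ρ)) : ℂ) := by
    rw [← trace_avg2_eq, trace_avg2, ← mul_assoc, mul_inv_cancel₀ cardG_ne, one_mul]
  rcases Nat.le_one_iff_eq_zero_or_eq_one.mp (finrank_range_avg2_le ρ) with h0 | h1
  · have hr : LinearMap.range (avg2 ρ) = ⊥ := Submodule.finrank_eq_zero.mp h0
    have hz : avg2 ρ = 0 := LinearMap.range_eq_bot.mp hr
    refine ⟨0, hsum 0 ?_, Or.inl ⟨rfl, ?_⟩⟩
    · rw [hz]; simp
    · rw [htr, h0]; simp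
  · obtain ⟨⟨t0, ht0⟩, hne, hspan⟩ := finrank_eq_one_iff'.mp h1
    have ht0' : t0 ≠ 0 := fun h => hne (Subtype.ext h)
    have hspan' : ∀ u, ∃ c : ℂ, c • t0 = avg2 ρ u := by
      intro u
      obtain ⟨c, hc⟩ := hspan ⟨avg2 ρ u, LinearMap.mem_range_self _ _⟩
      exact ⟨c, congrArg Subtype.val hc⟩
    have ht0a : avg2 ρ t0 = t0 := by
      obtain ⟨y, rfl⟩ := ht0
      exact avg2_avg2 ρ y
    obtain ⟨ε, hε⟩ := hspan' (swp V t0)
    have hs : swp V t0 = ε • t0 := by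
      rw [hε, avg2_swp, ht0a]
    have hε2 : ε * ε = 1 := by
      have h2 : swp V (swp V t0) = t0 := swp_swp_apply t0
      rw [hs, map_smul, hs, smul_smul] at h2
      have h3 : (ε * ε - 1) • t0 = 0 := by rw [sub_smul, h2, one_smul, sub_self]
      exact sub_eq_zero.mp ((smul_eq_zero.mp h3).resolve_right ht0')
    have hcomp : avg2 ρ ∘ₗ swp V = ε • avg2 ρ := by
      apply LinearMap.ext
      intro u
      obtain ⟨c, hc⟩ := hspan' u
      simp only [LinearMap.comp_apply, LinearMap.smul_apply]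
      rw [avg2_swp, ← hc, map_smul, hs, smul_comm]
    have htr2 : LinearMap.trace ℂ _ (avg2 ρ ∘ₗ swp V) = ε := by
      rw [hcomp, map_smul, trace_avg2_eq, h1]
      simp
    have htr3 : ∑ g : G, ρ.character g * ρ.character g = Nat.card G := by
      rw [htr, h1]; simp
    rcases mul_self_eq_one_iff.mp hε2 with h | h
    · exact ⟨1, hsum 1 (by rw [htr2, h]; simp), Or.inr ⟨Or.inl rfl, htr3⟩⟩
    · exact ⟨-1, hsum (-1) (by rw [htr2, h]; simp), Or.inr ⟨Or.inr rfl, htr3⟩⟩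

/-- The theorem of Frobenius and Schur: the indicator is `0` for the characters which are not
self-dual, and `1` or `-1` for the self-dual ones. -/
theorem ind_cases {χ : G → ℂ} (hχ : χ ∈ Irr G) :
    ∃ ν : ℤ, ind χ = ν ∧ (ν = 0 ∧ (fun g => χ g⁻¹) ≠ χ ∨
      (ν = 1 ∨ ν = -1) ∧ (fun g => χ g⁻¹) = χ) := by
  classical
  have : Fintype G := Fintype.ofFinite G
  have hG : (Nat.card G : ℂ) ≠ 0 := by exact_mod_cast Nat.card_pos.ne'
  obtain ⟨n, ρ, hρ, hρχ⟩ := id hχ
  obtain ⟨ν, h1, h2⟩ := fs_cases ρ (hρ := hρ)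
  rw [← hρχ] at h1 h2
  refine ⟨ν, ?_, ?_⟩
  · rw [ind, finsum_eq_sum_of_fintype, h1]
    field_simp
  · rcases h2 with ⟨h3, h4⟩ | ⟨h3, h4⟩
    · refine Or.inl ⟨h3, fun h => ?_⟩
      have h5 := pair_self hχ
      have h6 : ∀ g, χ g⁻¹ = χ g := fun g => congrFun h g
      simp only [h6] at h5
      rw [h4] at h5
      exact hG h5.symm
    · refine Or.inr ⟨h3, ?_⟩
      by_contra hne
      have h5 := pair_ne hχ (irr_inv hχ) (fun h => hne h.symm)
      simp only [inv_inv] at h5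
      rw [h4] at h5
      exact hG h5

end fs

end Pool.Agent.U398.Art
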