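import Mathlib
import Pool.Agent.U398.Art.FSI
import Pool.Agent.H302R2.Deg2C
import Pool.Agent.H302R2.PKernel

/-!
# Real Heilbronn functions of degree two
-/

set_option autoImplicit false
set_option linter.unusedSectionVars false

namespace Pool.Agent.U398.Art

open Pool.Agent.H302R2 Pool.Agent.H541R3.ART

variable {G : Type} [Group G] [Finite G]

lemma theta_sq [Fintype G] (n : (G → ℂ) → ℤ) :
    ∑ g : G, theta n g * theta n g⁻¹
      = (Nat.card G : ℂ) * ((∑ χ ∈ irrF G, n χ ^ 2 : ℤ) : ℂ) := by
  have h1 : ∀ g : G, theta n g * theta n g⁻¹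
      = ∑ χ ∈ irrF G, (n χ : ℂ) * (theta n g * χ g⁻¹) := by
    intro g
    conv_lhs => rw [theta.eq_def n g⁻¹]
    rw [Finset.mul_sum]
    exact Finset.sum_congr rfl fun χ _ => by ring
  simp_rw [h1]
  rw [Finset.sum_comm, Int.cast_sum, Finset.mul_sum]
  refine Finset.sum_congr rfl fun χ hχ => ?_
  rw [← Finset.mul_sum, theta_pair n (mem_irrF.mp hχ)]
  push_cast
  ring

lemma theta_ind [Fintype G] (n ν : (G → ℂ) → ℤ)
    (hν : ∀ χ ∈ Irr G, ∑ g : G, χ (g ^ 2) = (Nat.card G : ℂ) * ν χ) :
    ∑ g : G, theta n (g ^ 2)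
      = (Nat.card G : ℂ) * ((∑ χ ∈ irrF G, ν χ * n χ : ℤ) : ℂ) := by
  unfold theta
  rw [Finset.sum_comm, Int.cast_sum, Finset.mul_sum]
  refine Finset.sum_congr rfl fun χ hχ => ?_
  rw [← Finset.mul_sum, hν χ (mem_irrF.mp hχ)]
  push_cast
  ring

/-- the sum of a linear character -/
lemma sum_lin [Fintype G] (D : G →* ℂˣ) :
    ∑ g : G, ((D g : ℂˣ) : ℂ) = Nat.card G ∨ ∑ g : G, ((D g : ℂˣ) : ℂ) = 0 := by
  by_cases h : D = 1
  · left
    subst h
    simp [Nat.card_eq_fintype_card]
  · right
    rw [← finsum_eq_sum_of_fintype]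
    exact finsum_char_eq_zero D h

/-- **The identity of degree two.** -/
theorem deg_two_identity [Fintype G] (n ν : (G → ℂ) → ℤ)
    (hν : ∀ χ ∈ Irr G, ∑ g : G, χ (g ^ 2) = (Nat.card G : ℂ) * ν χ)
    (hθ : IsHeilbronn (theta n : G → ℂ)) (h2 : (theta n : G → ℂ) 1 = 2)
    (hreal : ∀ g : G, theta n g⁻¹ = theta n g) :
    ∑ χ ∈ irrF G, (n χ ^ 2 - ν χ * n χ) = 2 ∨ ∑ χ ∈ irrF G, (n χ ^ 2 - ν χ * n χ) = 0 := by
  have hG : (Nat.card G : ℂ) ≠ 0 := by exact_mod_cast Nat.card_pos.ne'
  obtain ⟨D, hD⟩ := hθ.exists_det h2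
  have h3 : (2 : ℂ) * ∑ g : G, ((D g : ℂˣ) : ℂ)
      = (Nat.card G : ℂ) * ((∑ χ ∈ irrF G, (n χ ^ 2 - ν χ * n χ) : ℤ) : ℂ) := by
    rw [Finset.sum_sub_distrib, Int.cast_sub, mul_sub, ← theta_sq, ← theta_ind n ν hν,
      Finset.mul_sum, ← Finset.sum_sub_distrib]
    refine Finset.sum_congr rfl fun g _ => ?_
    rw [hD, dd, hreal]
    ring
  rcases sum_lin D with h | h
  · left
    rw [h, mul_comm (2 : ℂ)] at h3
    have := mul_left_cancel₀ hG h3
    exact_mod_cast this.symm
  · right
    rw [h, mul_zero] at h3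
    have := (mul_eq_zero.mp h3.symm).resolve_left hG
    exact_mod_cast this

/-- a real Heilbronn function of degree two has real values in `[-2, 2]` -/
lemma real_two {θ : G → ℂ} (hθ : IsHeilbronn θ) (h2 : θ 1 = 2) (hreal : ∀ g, θ g⁻¹ = θ g) (g : G) :
    ∃ t : ℝ, θ g = t ∧ t ^ 2 ≤ 4 := by
  obtain ⟨a, b, ha, hb, -, hs, hp⟩ := hθ.two_eig h2 g
  have h1 : θ g⁻¹ = (starRingEnd ℂ) (θ g) := by
    have h3 := hp (-1)
    rw [zpow_neg_one, zpow_neg_one, zpow_neg_one] at h3
    rw [h3, hs, map_add, Complex.inv_eq_conj ha, Complex.inv_eq_conj hb]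
  rw [hreal] at h1
  obtain ⟨t, ht⟩ := Complex.conj_eq_iff_real.mp h1.symm
  refine ⟨t, ht, ?_⟩
  have h4 := hθ.norm_le g
  rw [ht, h2, Complex.norm_real, Real.norm_eq_abs] at h4
  have h5 : |t| ≤ 2 := by simpa using h4
  nlinarith [abs_nonneg t, sq_abs t]

/-- If the values are `2` and `-2` only, `θ / 2` is a linear character. -/
theorem scalar_two {θ : G → ℂ} (hθ : IsHeilbronn θ) (h2 : θ 1 = 2)
    (h : ∀ g, θ g = 2 ∨ θ g = -2) : ∃ f : G →* ℂˣ, ∀ g, θ g = 2 * ((f g : ℂˣ) : ℂ) := by
  classical
  let f : G → ℂˣ := fun g => if θ g = 2 then 1 else -1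
  have hf : ∀ g, θ g = 2 * ((f g : ℂˣ) : ℂ) := by
    intro g
    by_cases h3 : θ g = 2
    · simp [f, h3]
    · have h4 := (h g).resolve_left h3
      simp only [f, h3, if_false]
      rw [h4]; push_cast; ring
  have hf2 : ∀ g, f g = 1 ∨ f g = -1 := by
    intro g
    by_cases h3 : θ g = 2
    · left; simp [f, h3]
    · right; simp [f, h3]
  have hinj : ∀ g, f g = 1 ↔ θ g = θ 1 := by
    intro g
    rw [h2]
    constructor
    · intro h3
      rw [hf g, h3]; simp
    · intro h3
      simp [f, h3]
  -- a subgroup on which the kernel is closed under multiplication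
  have key : ∀ (P : Subgroup G), (∀ x ∈ P, ∀ y ∈ P, θ x = θ 1 → θ y = θ 1 → θ (x * y) = θ 1) →
      ∀ x ∈ P, ∀ y ∈ P, f (x * y) = f x * f y := by
    intro P hP
    have : Fintype P := Fintype.ofFinite P
    have hinv : ∀ x ∈ P, θ x = θ 1 → θ x⁻¹ = θ 1 := fun x _ hx => hθ.inv_of_eq hx
    -- mixed products
    have hm1 : ∀ x ∈ P, ∀ y ∈ P, f x = -1 → f y = 1 → f (x * y) = -1 := by
      intro x hx y hy h3 h4
      rcases hf2 (x * y) with h5 | h5
      · exfalso
        have h6 := hP (x * y) (P.mul_mem hx hy) y⁻¹ (P.inv_mem hy) ((hinj _).mp h5)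
          (hinv y hy ((hinj _).mp h4))
        rw [mul_inv_cancel_right, ← hinj, h3] at h6
        have h7 := congrArg (fun u : ℂˣ => (u : ℂ)) h6
        simp at h7
        norm_num at h7
      · exact h5
    have hm2 : ∀ x ∈ P, ∀ y ∈ P, f x = 1 → f y = -1 → f (x * y) = -1 := by
      intro x hx y hy h3 h4
      rcases hf2 (x * y) with h5 | h5
      · exfalso
        have h6 := hP x⁻¹ (P.inv_mem hx) (x * y) (P.mul_mem hx hy) (hinv x hx ((hinj _).mp h3))
          ((hinj _).mp h5)
        rw [inv_mul_cancel_left, ← hinj, h4] at h6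
        have h7 := congrArg (fun u : ℂˣ => (u : ℂ)) h6
        simp at h7
        norm_num at h7
      · exact h5
    -- products of two elements with value `-1`
    have hm3 : ∀ x ∈ P, ∀ y ∈ P, f x = -1 → f y = -1 → f (x * y) = 1 := by
      intro x hx y hy h3 h4
      rcases hf2 (x * y) with h5 | h5
      · exact h5
      exfalso
      -- the sum over `P` is negative
      obtain ⟨k, hk⟩ := hθ.mult P 1
      rw [finsum_eq_sum_of_fintype] at hk
      simp only [MonoidHom.one_apply, inv_one, Units.val_one, mul_one] at hk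
      set K := (Finset.univ : Finset P).filter (fun p : P => f (p : G) = 1) with hK
      have h6 : ∑ p : P, θ (p : G) = 2 * (K.card : ℂ) - 2 * ((Nat.card P : ℂ) - K.card) := by
        have h7 : ∀ p : P, θ (p : G) = (if f (p : G) = 1 then 4 else 0) - 2 := by
          intro p
          rcases hf2 (p : G) with h8 | h8
          · rw [if_pos h8, hf, h8]; norm_num
          · have h9 : ¬ f (p : G) = 1 := by
              rw [h8]
              intro h10
              have h7 := congrArg (fun u : ℂˣ => (u : ℂ)) h10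
              simp at h7
              norm_num at h7
            rw [if_neg h9, hf, h8]; push_cast; ring
        rw [Finset.sum_congr rfl fun p _ => h7 p, Finset.sum_sub_distrib, ← Finset.sum_filter,
          Finset.sum_const, Finset.sum_const, Finset.card_univ, ← Nat.card_eq_fintype_card]
        simp only [nsmul_eq_mul]
        ring
      -- three disjoint sets of the size of `K`
      let xp : P := ⟨x, hx⟩
      let yp : P := ⟨y, hy⟩
      have hone : f 1 = 1 := (hinj 1).mpr rfl
      have hne : (1 : ℂˣ) ≠ -1 := by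
        intro h10
        have h7 := congrArg (fun u : ℂˣ => (u : ℂ)) h10
        simp at h7
        norm_num at h7
      have h8 : K.card + K.card + K.card ≤ Nat.card P := by
        let K1 := K.image (fun p => xp⁻¹ * p)
        let K2 := K.image (fun p => yp * p)
        have c1 : K1.card = K.card := Finset.card_image_of_injective _ (mul_right_injective _)
        have c2 : K2.card = K.card := Finset.card_image_of_injective _ (mul_right_injective _)
        have hxi : f x⁻¹ = -1 := by
          rcases hf2 x⁻¹ with h9 | h9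
          · exfalso
            have h10 := hinv x⁻¹ (P.inv_mem hx) ((hinj _).mp h9)
            rw [inv_inv, ← hinj, h3] at h10
            exact hne h10.symm
          · exact h9
        have d1 : Disjoint K K1 := by
          rw [Finset.disjoint_left]
          intro p hp hp1
          obtain ⟨q, hq, rfl⟩ := Finset.mem_image.mp hp1
          rw [hK, Finset.mem_filter] at hp hq
          have h9 := hm1 x⁻¹ (P.inv_mem hx) q q.2 hxi hq.2
          have h10 : f (x⁻¹ * (q : G)) = 1 := hp.2
          rw [h10] at h9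
          exact hne h9
        have d2 : Disjoint K K2 := by
          rw [Finset.disjoint_left]
          intro p hp hp1
          obtain ⟨q, hq, rfl⟩ := Finset.mem_image.mp hp1
          rw [hK, Finset.mem_filter] at hp hq
          have h9 := hm1 y hy q q.2 h4 hq.2
          have h10 : f (y * (q : G)) = 1 := hp.2
          rw [h10] at h9
          exact hne h9
        have d3 : Disjoint K1 K2 := by
          rw [Finset.disjoint_left]
          intro p hp hp1
          obtain ⟨q, hq, rfl⟩ := Finset.mem_image.mp hp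
          obtain ⟨q', hq', h9⟩ := Finset.mem_image.mp hp1
          rw [hK, Finset.mem_filter] at hq hq'
          -- `y q' = x⁻¹ q`, so `x y = q q'⁻¹` has value one
          have h10 : (y : G) * q' = x⁻¹ * q := congrArg Subtype.val h9
          have h11 : x * y = (q : G) * (q' : G)⁻¹ := by
            rw [eq_mul_inv_iff_mul_eq, mul_assoc, h10, mul_inv_cancel_left]
          have h12 := hP q q.2 (q' : G)⁻¹ (P.inv_mem q'.2) ((hinj _).mp hq.2)
            (hinv _ q'.2 ((hinj _).mp hq'.2))
          rw [← h11, ← hinj, h5] at h12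
          exact hne h12.symm
        have h9 : ((K ∪ K1) ∪ K2).card = K.card + K.card + K.card := by
          rw [Finset.card_union_of_disjoint, Finset.card_union_of_disjoint d1, c1, c2]
          exact Finset.disjoint_union_left.mpr ⟨d2, d3⟩
        rw [← h9, Nat.card_eq_fintype_card]
        exact Finset.card_le_univ _
      have hKpos : 0 < K.card := Finset.card_pos.mpr ⟨1, by rw [hK, Finset.mem_filter]; exact ⟨Finset.mem_univ _, hone⟩⟩
      rw [h6] at hk
      have h9 : ((4 * (K.card : ℤ) - 2 * (Nat.card P : ℤ) : ℤ) : ℂ) = ((k * Nat.card P : ℕ) : ℤ) := by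
        push_cast
        linear_combination hk
      have h10 : 4 * (K.card : ℤ) - 2 * (Nat.card P : ℤ) = ((k * Nat.card P : ℕ) : ℤ) := by
        exact_mod_cast h9
      have h11 : (0 : ℤ) ≤ ((k * Nat.card P : ℕ) : ℤ) := Int.natCast_nonneg _
      omega
    intro x hx y hy
    rcases hf2 x with h3 | h3 <;> rcases hf2 y with h4 | h4
    · rw [h3, h4, mul_one]
      exact (hinj _).mpr (hP x hx y hy ((hinj _).mp h3) ((hinj _).mp h4))
    · rw [h3, h4, one_mul]; exact hm2 x hx y hy h3 h4
    · rw [h3, h4, mul_one]; exact hm1 x hx y hy h3 h4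
    · rw [h3, h4]
      simpa using hm3 x hx y hy h3 h4
  have hmul : ∀ g h, f (g * h) = f g * f h := by
    apply mul_of_pgroups
    · intro g h
      by_cases h3 : θ g = 2
      · simp [f, hθ.conj, h3]
      · simp [f, hθ.conj, h3]
    · intro g k
      have hcyc := key (Subgroup.zpowers g) (by
        intro x hx y hy h3 h4
        have hc : x * y = y * x := by
          have := zpowers_comm g ⟨x, hx⟩ ⟨y, hy⟩
          exact congrArg Subtype.val this
        rw [hθ.mul_of_comm hc h4, h3])
      induction k with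
      | zero =>
        rw [pow_zero, pow_zero]
        exact (hinj 1).mpr rfl
      | succ k ih =>
        rw [pow_succ, pow_succ, ← ih]
        exact hcyc (g ^ k) (Subgroup.pow_mem _ (Subgroup.mem_zpowers g) k) g
          (Subgroup.mem_zpowers g)
    · intro p hp P hP
      have : Fact p.Prime := ⟨hp⟩
      refine key P ?_
      intro x hx y hy h3 h4
      exact hθ.pgroup_mul (p := p) (R := P) hP hx hy h3 h4
  exact ⟨{ toFun := f, map_one' := (hinj 1).mpr rfl, map_mul' := hmul }, hf⟩

end Pool.Agent.U398.Art
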