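import Mathlib
import Pool.Agent.U398.Art.Core

/-!
# Structure of central Heilbronn functions of degree two
-/

set_option autoImplicit false
set_option linter.unusedSectionVars false

namespace Pool.Agent.U398.Art

open Pool.Agent.H302R2 Pool.Agent.H541R3.ART Pool.Agent.W446.AS

variable {G : Type} [Group G] [Finite G]

/-- linear characters are irreducible characters -/
lemma lin_irr (f : G →* ℂˣ) : (fun g => ((f g : ℂˣ) : ℂ)) ∈ Irr G := by
  classical
  have : Fintype G := Fintype.ofFinite G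
  have hG : (Nat.card G : ℂ) ≠ 0 := by exact_mod_cast Nat.card_pos.ne'
  refine irr_of_norm_one (d := 1) ?_ ?_ one_pos (by simp)
  · have h1 : (fun g => ((f g : ℂˣ) : ℂ)) = (linRep f).character := by
      funext g
      rw [linRep_char]
    rw [h1]
    exact char_mem _ (linRep f) rfl
  · rw [pr_eq]
    have h1 : ∀ g : G, ((f g : ℂˣ) : ℂ) * ((f g⁻¹ : ℂˣ) : ℂ) = 1 := by
      intro g
      rw [← Units.val_mul, ← map_mul, mul_inv_cancel, map_one, Units.val_one]
    rw [Finset.sum_congr rfl fun g _ => h1 g, Finset.sum_const, Finset.card_univ,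
      ← Nat.card_eq_fintype_card, nsmul_eq_mul, mul_one, inv_mul_cancel₀ hG]

/-- the square sum of a real Heilbronn function of degree two is at most `4`, and in the case of
equality there is a multiplicity `2` -/
theorem sq_le_four (n : (G → ℂ) → ℤ) (hθ : IsHeilbronn (theta n : G → ℂ))
    (h2 : (theta n : G → ℂ) 1 = 2) (hreal : ∀ g : G, theta n g⁻¹ = theta n g) :
    ∑ χ ∈ irrF G, n χ ^ 2 ≤ 4 ∧
      (∑ χ ∈ irrF G, n χ ^ 2 = 4 → ∃ χ ∈ irrF G, n χ = 2) := by
  classical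
  have : Fintype G := Fintype.ofFinite G
  have hG : (Nat.card G : ℂ) ≠ 0 := by exact_mod_cast Nat.card_pos.ne'
  have hGR : (0 : ℝ) < Nat.card G := by exact_mod_cast Nat.card_pos
  choose t ht ht4 using real_two hθ h2 hreal
  have h3 := theta_sq (G := G) n
  have h4 : ∑ g : G, t g ^ 2 = (Nat.card G : ℝ) * ((∑ χ ∈ irrF G, n χ ^ 2 : ℤ) : ℝ) := by
    have h5 : ((∑ g : G, t g ^ 2 : ℝ) : ℂ)
        = (((Nat.card G : ℝ) * ((∑ χ ∈ irrF G, n χ ^ 2 : ℤ) : ℝ) : ℝ) : ℂ) := by
      have h6 : ((∑ g : G, t g ^ 2 : ℝ) : ℂ) = ∑ g : G, theta n g * theta n g⁻¹ := by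
        push_cast
        refine Finset.sum_congr rfl fun g _ => ?_
        rw [hreal, ht]; ring
      rw [h6, h3]
      push_cast
      ring
    exact_mod_cast h5
  have h7 : ∑ g : G, t g ^ 2 ≤ 4 * (Nat.card G : ℝ) := by
    calc ∑ g : G, t g ^ 2 ≤ ∑ g : G, (4 : ℝ) := Finset.sum_le_sum fun g _ => ht4 g
      _ = 4 * (Nat.card G : ℝ) := by
        rw [Finset.sum_const, Finset.card_univ, ← Nat.card_eq_fintype_card, nsmul_eq_mul, mul_comm]
  constructor
  · have h8 : ((∑ χ ∈ irrF G, n χ ^ 2 : ℤ) : ℝ) ≤ 4 := by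
      rw [h4] at h7
      nlinarith
    exact_mod_cast h8
  · intro h8
    have h9 : ∑ g : G, (4 - t g ^ 2) = 0 := by
      rw [Finset.sum_sub_distrib, h4, h8, Finset.sum_const, Finset.card_univ,
        ← Nat.card_eq_fintype_card, nsmul_eq_mul]
      push_cast
      ring
    have h10 : ∀ g, t g ^ 2 = 4 := by
      intro g
      have h11 := (Finset.sum_eq_zero_iff_of_nonneg (fun g _ => by
        have := ht4 g
        linarith)).mp h9 g (Finset.mem_univ g)
      linarith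
    have h12 : ∀ g, (theta n : G → ℂ) g = 2 ∨ (theta n : G → ℂ) g = -2 := by
      intro g
      have h13 : (t g - 2) * (t g + 2) = 0 := by linear_combination h10 g
      rcases mul_eq_zero.mp h13 with h | h
      · left
        rw [ht g, show t g = 2 by linarith]; norm_num
      · right
        rw [ht g, show t g = -2 by linarith]; norm_num
    obtain ⟨f, hf⟩ := scalar_two hθ h2 h12
    refine ⟨_, mem_irrF.mpr (lin_irr f), ?_⟩
    have h14 := theta_pair n (lin_irr f)
    have h15 : ∀ g : G, (theta n : G → ℂ) g * ((f g⁻¹ : ℂˣ) : ℂ) = 2 := by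
      intro g
      rw [hf, mul_assoc, ← Units.val_mul, ← map_mul, mul_inv_cancel, map_one, Units.val_one, mul_one]
    rw [Finset.sum_congr rfl fun g _ => h15 g, Finset.sum_const, Finset.card_univ,
      ← Nat.card_eq_fintype_card, nsmul_eq_mul, mul_comm] at h14
    have h16 := mul_right_cancel₀ hG h14
    exact_mod_cast h16.symm

/-- the data of a central function of degree two -/
structure CTwo (n ν : (G → ℂ) → ℤ) : Prop where
  heil : IsHeilbronn (theta n : G → ℂ)
  two : (theta n : G → ℂ) 1 = 2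
  real : ∀ g : G, theta n g⁻¹ = theta n g
  ind : ∀ χ ∈ Irr G, Pool.Agent.U398.Art.ind χ = ν χ
  cases : ∀ χ ∈ Irr G, ν χ = 0 ∧ (fun g => χ g⁻¹) ≠ χ ∨ (ν χ = 1 ∨ ν χ = -1) ∧ (fun g => χ g⁻¹) = χ
  dual : ∀ χ ∈ Irr G, n (fun g => χ g⁻¹) = n χ
  even : ∀ χ ∈ Irr G, ν χ = 1 → Even (n χ)

namespace CTwo

variable {n ν : (G → ℂ) → ℤ} (h : CTwo n ν)

include h

lemma sum_deg (d : (G → ℂ) → ℕ) (hd : ∀ χ ∈ Irr G, χ 1 = d χ) :
    ∑ χ ∈ irrF G, n χ * d χ = 2 := by
  have h1 := h.two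
  unfold theta at h1
  have h2 : ∑ χ ∈ irrF G, (n χ : ℂ) * χ 1 = ((∑ χ ∈ irrF G, n χ * d χ : ℤ) : ℂ) := by
    push_cast
    exact Finset.sum_congr rfl fun χ hχ => by rw [hd χ (mem_irrF.mp hχ)]
  rw [h2] at h1
  exact_mod_cast h1

lemma sum_T : ∑ χ ∈ irrF G, (n χ ^ 2 - ν χ * n χ) ≤ 2 := by
  classical
  have : Fintype G := Fintype.ofFinite G
  have hG : (Nat.card G : ℂ) ≠ 0 := by exact_mod_cast Nat.card_pos.ne'
  have h1 : ∀ χ ∈ Irr G, ∑ g : G, χ (g ^ 2) = (Nat.card G : ℂ) * ν χ := by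
    intro χ hχ
    have h2 := h.ind χ hχ
    rw [Pool.Agent.U398.Art.ind, finsum_eq_sum_of_fintype, div_eq_iff hG] at h2
    rw [h2, mul_comm]
  rcases deg_two_identity n ν h1 h.heil h.two h.real with h2 | h2 <;> rw [h2] <;> norm_num

lemma T_nonneg {χ : G → ℂ} (hχ : χ ∈ Irr G) : 0 ≤ n χ ^ 2 - ν χ * n χ := by
  rcases h.cases χ hχ with ⟨h1, -⟩ | ⟨h1 | h1, -⟩ <;> rw [h1]
  · nlinarith [sq_nonneg (n χ)]
  · rcases le_or_gt (n χ) 0 with h2 | h2
    · nlinarith
    · nlinarith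
  · rcases le_or_gt 0 (n χ) with h2 | h2
    · nlinarith
    · nlinarith

/-- some multiplicity is positive -/
lemma exists_pos : ∃ χ ∈ Irr G, 0 < n χ := by
  by_contra hcon
  push Not at hcon
  choose! d hd0 hd using fun χ (hχ : χ ∈ Irr G) => irr_deg_pos hχ
  have h1 := h.sum_deg d hd
  have h2 : ∑ χ ∈ irrF G, n χ * d χ ≤ 0 := Finset.sum_nonpos fun χ hχ => by
    have h3 := hcon χ (mem_irrF.mp hχ)
    have h4 : (0 : ℤ) ≤ d χ := Int.natCast_nonneg _
    nlinarith
  omega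

/-- **Structure.** -/
theorem structure' {χ : G → ℂ} (hχ : χ ∈ Irr G) (hpos : 0 < n χ) :
    (ν χ = 1 → n χ = 2) ∧ (ν χ ≠ 1 → n χ = 1) ∧
    ∀ ψ ∈ Irr G, ψ ≠ χ → ψ ≠ (fun g => χ g⁻¹) → n ψ = 0 ∨ (ν ψ = -1 ∧ n ψ = -1) := by
  classical
  have hsum := h.sum_T
  have hT : ∀ ψ ∈ irrF G, 0 ≤ n ψ ^ 2 - ν ψ * n ψ := fun ψ hψ => h.T_nonneg (mem_irrF.mp hψ)
  have hlast : ∀ ψ ∈ Irr G, n ψ ^ 2 - ν ψ * n ψ = 0 → n ψ = 0 ∨ (ν ψ = -1 ∧ n ψ = -1) := by
    intro ψ hψ h1
    have h2 : n ψ * (n ψ - ν ψ) = 0 := by linear_combination h1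
    rcases mul_eq_zero.mp h2 with h3 | h3
    · exact Or.inl h3
    · rcases h.cases ψ hψ with ⟨h4, -⟩ | ⟨h4 | h4, -⟩
      · left; omega
      · exfalso
        obtain ⟨k, hk⟩ := h.even ψ hψ h4
        omega
      · right; omega
  rcases h.cases χ hχ with ⟨h1, h2⟩ | ⟨h1, h2⟩
  · -- not self-dual
    have hχ' := irr_inv hχ
    have hd := h.dual χ hχ
    have hν' : ν (fun g => χ g⁻¹) = 0 := by
      rcases h.cases _ hχ' with ⟨h3, -⟩ | ⟨-, h3⟩
      · exact h3
      · exfalso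
        apply h2
        have h4 : (fun g => (fun g => χ g⁻¹) g⁻¹) = χ := by
          funext g; simp
        rw [← h3, h4]
    have hpair : ∀ ψ ∈ Irr G, ψ ≠ χ → ψ ≠ (fun g => χ g⁻¹) →
        (n χ ^ 2 - ν χ * n χ) + (n (fun g => χ g⁻¹) ^ 2 - ν (fun g => χ g⁻¹) * n (fun g => χ g⁻¹))
          + (n ψ ^ 2 - ν ψ * n ψ) ≤ 2 := by
      intro ψ hψ h3 h4
      have h5 : ({χ, (fun g => χ g⁻¹), ψ} : Finset (G → ℂ)) ⊆ irrF G := by
        intro x hx
        simp only [Finset.mem_insert, Finset.mem_singleton] at hx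
        rcases hx with rfl | rfl | rfl
        · exact mem_irrF.mpr hχ
        · exact mem_irrF.mpr hχ'
        · exact mem_irrF.mpr hψ
      have h6 := Finset.sum_le_sum_of_subset_of_nonneg h5 (fun x hx _ => hT x hx)
      rw [Finset.sum_insert, Finset.sum_insert, Finset.sum_singleton] at h6
      · linarith
      · simp only [Finset.mem_singleton]
        exact fun h7 => h4 h7.symm
      · simp only [Finset.mem_insert, Finset.mem_singleton, not_or]
        exact ⟨fun h7 => h2 h7.symm, fun h7 => h3 h7.symm⟩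
    have hpair2 : (n χ ^ 2 - ν χ * n χ)
        + (n (fun g => χ g⁻¹) ^ 2 - ν (fun g => χ g⁻¹) * n (fun g => χ g⁻¹)) ≤ 2 := by
      have h5 : ({χ, (fun g => χ g⁻¹)} : Finset (G → ℂ)) ⊆ irrF G := by
        intro x hx
        simp only [Finset.mem_insert, Finset.mem_singleton] at hx
        rcases hx with rfl | rfl
        · exact mem_irrF.mpr hχ
        · exact mem_irrF.mpr hχ'
      have h6 := Finset.sum_le_sum_of_subset_of_nonneg h5 (fun x hx _ => hT x hx)
      rw [Finset.sum_insert, Finset.sum_singleton] at h6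
      · linarith
      · simp only [Finset.mem_singleton]
        exact fun h7 => h2 h7.symm
    rw [h1, hν', hd] at hpair2
    have hn1 : n χ = 1 := by nlinarith
    refine ⟨fun h3 => by omega, fun _ => hn1, fun ψ hψ h3 h4 => hlast ψ hψ ?_⟩
    have h5 := hpair ψ hψ h3 h4
    rw [h1, hν', hd, hn1] at h5
    have h6 := h.T_nonneg hψ
    linarith
  · -- self-dual
    have hpair : ∀ ψ ∈ Irr G, ψ ≠ χ → (n χ ^ 2 - ν χ * n χ) + (n ψ ^ 2 - ν ψ * n ψ) ≤ 2 := by
      intro ψ hψ h3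
      have h5 : ({χ, ψ} : Finset (G → ℂ)) ⊆ irrF G := by
        intro x hx
        simp only [Finset.mem_insert, Finset.mem_singleton] at hx
        rcases hx with rfl | rfl
        · exact mem_irrF.mpr hχ
        · exact mem_irrF.mpr hψ
      have h6 := Finset.sum_le_sum_of_subset_of_nonneg h5 (fun x hx _ => hT x hx)
      rw [Finset.sum_insert, Finset.sum_singleton] at h6
      · linarith
      · simp only [Finset.mem_singleton]
        exact fun h7 => h3 h7.symm
    have hpair2 : n χ ^ 2 - ν χ * n χ ≤ 2 := by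
      have h6 := Finset.single_le_sum hT (mem_irrF.mpr hχ)
      linarith
    rcases h1 with h1 | h1
    · obtain ⟨k, hk⟩ := h.even χ hχ h1
      rw [h1] at hpair2
      have hk1 : k = 1 := by nlinarith
      have hn : n χ = 2 := by omega
      refine ⟨fun _ => hn, fun h3 => absurd h1 h3, fun ψ hψ h3 _ => hlast ψ hψ ?_⟩
      have h5 := hpair ψ hψ h3
      rw [h1, hn] at h5
      have h6 := h.T_nonneg hψ
      linarith
    · rw [h1] at hpair2
      have hn : n χ = 1 := by nlinarith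
      refine ⟨fun h3 => by omega, fun _ => hn, fun ψ hψ h3 _ => hlast ψ hψ ?_⟩
      have h5 := hpair ψ hψ h3
      rw [h1, hn] at h5
      have h6 := h.T_nonneg hψ
      linarith

/-- only symplectic multiplicities can be negative, and they are `-1` -/
theorem neg {ψ : G → ℂ} (hψ : ψ ∈ Irr G) (hneg : n ψ < 0) : ν ψ = -1 ∧ n ψ = -1 := by
  obtain ⟨χ, hχ, hpos⟩ := h.exists_pos
  obtain ⟨-, -, h3⟩ := h.structure' hχ hpos
  have h4 : ψ ≠ χ := by rintro rfl; omega
  have h5 : ψ ≠ (fun g => χ g⁻¹) := by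
    rintro rfl
    rw [h.dual χ hχ] at hneg
    omega
  rcases h3 ψ hψ h4 h5 with h6 | h6
  · omega
  · exact h6

/-- the number of the negative multiplicities -/
theorem card_neg {χ : G → ℂ} (hχ : χ ∈ Irr G) (hpos : 0 < n χ) :
    (ν χ = 1 → ∀ ψ ∈ Irr G, 0 ≤ n ψ) ∧
    (ν χ = 0 → {ψ | ψ ∈ Irr G ∧ n ψ < 0}.ncard ≤ 1) ∧
    {ψ | ψ ∈ Irr G ∧ n ψ < 0}.ncard ≤ 2 := by
  classical
  obtain ⟨h1, h2, h3⟩ := h.structure' hχ hpos
  obtain ⟨h4, h5⟩ := sq_le_four n h.heil h.two h.real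
  set B := (irrF G).filter fun ψ => n ψ < 0 with hB
  have hBset : {ψ | ψ ∈ Irr G ∧ n ψ < 0} = (B : Set (G → ℂ)) := by
    ext ψ
    simp only [Set.mem_ofPred_eq, hB, Finset.coe_filter, mem_irrF]
  have hBsum : ∑ ψ ∈ B, n ψ ^ 2 = B.card := by
    rw [Finset.sum_congr rfl (g := fun _ => (1 : ℤ))]
    · simp
    · intro ψ hψ
      rw [hB, Finset.mem_filter] at hψ
      rw [(h.neg (mem_irrF.mp hψ.1) hψ.2).2]
      norm_num
  have hsq : ∀ x ∈ irrF G, 0 ≤ n x ^ 2 := fun x _ => sq_nonneg _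
  have hχB : χ ∉ B := by
    rw [hB, Finset.mem_filter]
    rintro ⟨-, h6⟩
    omega
  have hone : n χ ^ 2 + (B.card : ℤ) ≤ ∑ χ ∈ irrF G, n χ ^ 2 := by
    have h6 : insert χ B ⊆ irrF G := by
      intro x hx
      rcases Finset.mem_insert.mp hx with rfl | hx
      · exact mem_irrF.mpr hχ
      · exact (Finset.mem_filter.mp hx).1
    have h7 := Finset.sum_le_sum_of_subset_of_nonneg h6 (fun x hx _ => hsq x hx)
    rw [Finset.sum_insert hχB, hBsum] at h7
    exact h7
  -- no equality in the other cases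
  have hne : ν χ ≠ 1 → ∑ χ ∈ irrF G, n χ ^ 2 ≤ 3 := by
    intro hν
    by_contra hcon
    have h6 : ∑ χ ∈ irrF G, n χ ^ 2 = 4 := by omega
    obtain ⟨ψ, hψ, hψ2⟩ := h5 h6
    have hψ' := mem_irrF.mp hψ
    have h7 := h2 hν
    by_cases h8 : ψ = χ
    · rw [h8] at hψ2; omega
    by_cases h9 : ψ = (fun g => χ g⁻¹)
    · rw [h9, h.dual χ hχ] at hψ2; omega
    rcases h3 ψ hψ' h8 h9 with h10 | h10 <;> omega
  rw [hBset, Set.ncard_coe_finset]
  refine ⟨?_, ?_, ?_⟩
  · intro hν ψ hψ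
    by_contra hcon
    push Not at hcon
    have h6 := h1 hν
    rw [h6] at hone
    have h7 : B.card = 0 := by
      have : (B.card : ℤ) ≤ 0 := by linarith
      omega
    rw [Finset.card_eq_zero] at h7
    have h8 : ψ ∈ B := by
      rw [hB, Finset.mem_filter]
      exact ⟨mem_irrF.mpr hψ, hcon⟩
    rw [h7] at h8
    exact absurd h8 (Finset.notMem_empty _)
  · intro hν
    have h6 := hne (by omega)
    have h7 := h2 (by omega)
    -- the dual as well
    have hχ' := irr_inv hχ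
    have hnd : (fun g => χ g⁻¹) ≠ χ := by
      rcases h.cases χ hχ with ⟨-, h8⟩ | ⟨h8, -⟩
      · exact h8
      · omega
    have hχ'B : (fun g => χ g⁻¹) ∉ B := by
      rw [hB, Finset.mem_filter]
      rintro ⟨-, h8⟩
      rw [h.dual χ hχ] at h8
      omega
    have h8 : insert χ (insert (fun g => χ g⁻¹) B) ⊆ irrF G := by
      intro x hx
      rcases Finset.mem_insert.mp hx with rfl | hx
      · exact mem_irrF.mpr hχ
      · rcases Finset.mem_insert.mp hx with rfl | hx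
        · exact mem_irrF.mpr hχ'
        · exact (Finset.mem_filter.mp hx).1
    have h9 := Finset.sum_le_sum_of_subset_of_nonneg h8 (fun x hx _ => hsq x hx)
    rw [Finset.sum_insert (by
      rw [Finset.mem_insert]
      rintro (h10 | h10)
      · exact hnd h10.symm
      · exact hχB h10), Finset.sum_insert hχ'B, hBsum, h.dual χ hχ, h7] at h9
    have h10 : (B.card : ℤ) ≤ 1 := by linarith
    exact_mod_cast h10
  · by_cases hν : ν χ = 1
    · rw [h1 hν] at hone
      have h10 : (B.card : ℤ) ≤ 2 := by linarith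
      exact_mod_cast h10
    · have h6 := hne hν
      rw [h2 hν] at hone
      have h10 : (B.card : ℤ) ≤ 2 := by linarith
      exact_mod_cast h10

/-- if nothing is negative, the characters which occur are linear -/
theorem linear_of_nonneg (hnn : ∀ ψ ∈ Irr G, 0 ≤ n ψ) {χ : G → ℂ} (hχ : χ ∈ Irr G)
    (hν : ν χ ≠ -1) (h0 : n χ ≠ 0) : χ 1 = 1 := by
  classical
  choose! d hd0 hd using fun χ (hχ : χ ∈ Irr G) => irr_deg_pos hχ
  have h1 := h.sum_deg d hd
  have hpos : 0 < n χ := lt_of_le_of_ne (hnn χ hχ) (Ne.symm h0)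
  obtain ⟨h2, h3, -⟩ := h.structure' hχ hpos
  have hT : ∀ x ∈ irrF G, 0 ≤ n x * d x := fun x hx =>
    mul_nonneg (hnn x (mem_irrF.mp hx)) (Int.natCast_nonneg _)
  rcases h.cases χ hχ with ⟨h4, h5⟩ | ⟨h4, h5⟩
  · have hχ' := irr_inv hχ
    have h8 : ({χ, (fun g => χ g⁻¹)} : Finset (G → ℂ)) ⊆ irrF G := by
      intro x hx
      simp only [Finset.mem_insert, Finset.mem_singleton] at hx
      rcases hx with rfl | rfl
      · exact mem_irrF.mpr hχ
      · exact mem_irrF.mpr hχ'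
    have h6 := Finset.sum_le_sum_of_subset_of_nonneg h8 (fun x hx _ => hT x hx)
    rw [Finset.sum_insert, Finset.sum_singleton, h1, h.dual χ hχ, h3 (by omega)] at h6
    · have h9 := hd0 χ hχ
      have h10 := hd0 _ hχ'
      have h11 : d χ = 1 := by omega
      rw [hd χ hχ, h11]; simp
    · simp only [Finset.mem_singleton]
      exact fun h7 => h5 h7.symm
  · have h6 := Finset.single_le_sum hT (mem_irrF.mpr hχ)
    rw [h1, h2 (h4.resolve_right hν)] at h6
    have h9 := hd0 χ hχ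
    have h11 : d χ = 1 := by omega
    rw [hd χ hχ, h11]; simp

end CTwo

end Pool.Agent.U398.Art
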