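import Mathlib
import Pool.Agent.U398.Art.Two

/-!
# The central point
-/

set_option autoImplicit false
set_option linter.unusedSectionVars false

namespace Pool.Agent.U398.Art

open Pool.Agent.H302R2 Pool.Agent.H541R3.ART Filter Topology

/-- The properties of the orders of the L-functions at the central point which come from the
functional equation: dual characters have the same order; the orders for the orthogonal irreducible
characters (indicator `1`) are even; the orders for the quadratic or trivial characters of all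
subgroups are even. -/
structure Central {G : Type} [Group G] {s₀ : ℂ} (A : ArtinData G s₀) : Prop where
  dual : ∀ χ ∈ Irr G, meromorphicOrderAt (A.L fun g => χ g⁻¹) s₀ = meromorphicOrderAt (A.L χ) s₀
  orth : ∀ χ ∈ Irr G, ind χ = 1 →
    ∃ k : ℤ, meromorphicOrderAt (A.L χ) s₀ = ((2 * k : ℤ) : WithTop ℤ)
  quad : ∀ (H : Subgroup G) (ψ : H →* ℂˣ), (∀ h, ψ h ^ 2 = 1) →
    ∃ k : ℤ, meromorphicOrderAt (A.Lin H ψ) s₀ = ((2 * k : ℤ) : WithTop ℤ)

/-- the multiplicities of the quadratic characters of the subgroups are even -/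
def EvenMult {H : Type*} [Group H] (θ : H → ℂ) : Prop :=
  ∀ (K : Subgroup H) (ψ : K →* ℂˣ), (∀ k, ψ k ^ 2 = 1) →
    ∃ k : ℕ, ∑ᶠ h : K, θ h * (((ψ h)⁻¹ : ℂˣ) : ℂ) = ((2 * k : ℕ) : ℂ) * Nat.card K

lemma EvenMult.mult_inj {H : Type*} [Group H] [Finite H] {θ : H → ℂ} (hE : EvenMult θ)
    {E : Type*} [Group E] [Fintype E] (φ : E →* H) (hφ : Function.Injective φ) (ψ : E →* ℂˣ)
    (hψ : ∀ e, ψ e ^ 2 = 1) :
    ∃ k : ℕ, ∑ e : E, θ (φ e) * (((ψ e)⁻¹ : ℂˣ) : ℂ) = ((2 * k : ℕ) : ℂ) * Nat.card E := by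
  classical
  let e := MonoidHom.ofInjective hφ
  obtain ⟨k, hk⟩ := hE φ.range (ψ.comp e.symm.toMonoidHom) (fun x => hψ _)
  have : Fintype φ.range := Fintype.ofFinite _
  refine ⟨k, ?_⟩
  rw [Nat.card_congr e.toEquiv, ← hk, finsum_eq_sum_of_fintype, ← Equiv.sum_comp e.toEquiv]
  refine Finset.sum_congr rfl fun x _ => ?_
  change _ = θ ((e x : φ.range) : H) * (((ψ (e.symm (e x)))⁻¹ : ℂˣ) : ℂ)
  rw [MulEquiv.symm_apply_apply]
  rfl

lemma EvenMult.comp_inj {H : Type*} [Group H] [Finite H] {θ : H → ℂ} (hE : EvenMult θ)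
    {E : Type*} [Group E] [Finite E] (φ : E →* H) (hφ : Function.Injective φ) :
    EvenMult (fun e => θ (φ e)) := by
  intro K ψ hψ
  have : Fintype K := Fintype.ofFinite _
  obtain ⟨k, hk⟩ := hE.mult_inj (φ.comp K.subtype) (hφ.comp K.subtype_injective) ψ hψ
  exact ⟨k, by rw [finsum_eq_sum_of_fintype]; exact hk⟩

variable {G : Type} [Group G] [Finite G] {s₀ : ℂ}

lemma evenMult (A : ArtinData G s₀) (hA : Central A) : EvenMult (theta A.ord : G → ℂ) := by
  intro K ψ hψ
  obtain ⟨k, hk⟩ := hA.quad K ψ hψ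
  obtain ⟨j, hj⟩ := A.isHeilbronn.mult K ψ
  choose! m hm using fun χ (hχ : χ ∈ Irr G) => exists_mult hχ K ψ
  have h1 := A.order_Lin K ψ m hm
  have h2 := theta_mult A.ord K ψ m hm
  rw [hk] at h1
  have h3 : (2 * k : ℤ) = ∑ χ ∈ irrF G, (m χ : ℤ) * A.ord χ := WithTop.coe_injective h1
  rw [← h3, hj] at h2
  have hK : (Nat.card K : ℂ) ≠ 0 := by exact_mod_cast Nat.card_pos.ne'
  have h4 := mul_right_cancel₀ hK h2
  have h5 : (j : ℤ) = 2 * k := by exact_mod_cast h4
  refine ⟨k.toNat, ?_⟩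
  rw [hj]
  congr 1
  have h6 : (j : ℤ) = ((2 * k.toNat : ℕ) : ℤ) := by
    push_cast
    rw [h5, Int.toNat_of_nonneg (by omega)]
  exact_mod_cast congrArg (fun z : ℤ => (z : ℂ)) h6

/-- at a real point the function is real -/
lemma theta_real (A : ArtinData G s₀)
    (hreal : ∀ χ ∈ Irr G, meromorphicOrderAt (A.L fun g => χ g⁻¹) s₀
      = meromorphicOrderAt (A.L χ) s₀) (g : G) :
    (theta A.ord : G → ℂ) g⁻¹ = (theta A.ord : G → ℂ) g := by
  classical
  unfold theta
  refine Finset.sum_bij' (fun χ _ => fun g => χ g⁻¹) (fun χ _ => fun g => χ g⁻¹) ?_ ?_ ?_ ?_ ?_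
  · intro χ hχ
    exact mem_irrF.mpr (irr_inv (mem_irrF.mp hχ))
  · intro χ hχ
    exact mem_irrF.mpr (irr_inv (mem_irrF.mp hχ))
  · intro χ _
    funext g
    simp
  · intro χ _
    funext g
    simp
  · intro χ hχ
    have h1 := hreal χ (mem_irrF.mp hχ)
    have h2 : A.ord (fun g => χ g⁻¹) = A.ord χ := by
      unfold ArtinData.ord
      rw [h1]
    rw [h2]

/-- the order of the zeta function of the top field at the central point is even -/
lemma even_top (A : ArtinData G s₀) (hA : Central A) {r : ℕ}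
    (hr : meromorphicOrderAt (A.Lin ⊥ 1) s₀ = (r : WithTop ℤ)) : Even r := by
  obtain ⟨k, hk⟩ := hA.quad ⊥ 1 (fun h => by simp)
  rw [hr] at hk
  have h1 : (r : ℤ) = 2 * k := by
    have h2 : (((r : ℤ)) : WithTop ℤ) = ((2 * k : ℤ) : WithTop ℤ) := by
      rw [← hk]; rfl
    exact WithTop.coe_injective h2
  exact ⟨k.toNat, by omega⟩

/-- the orders as a central function of degree two -/
theorem cTwo (A : ArtinData G s₀) (hA : Central A)
    (hr : meromorphicOrderAt (A.Lin ⊥ 1) s₀ = ((2 : ℕ) : WithTop ℤ)) :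
    ∃ ν : (G → ℂ) → ℤ, CTwo (G := G) A.ord ν := by
  classical
  choose! ν hν1 hν2 using fun χ (hχ : χ ∈ Irr G) => ind_cases hχ
  refine ⟨ν, ?_⟩
  constructor
  · exact A.isHeilbronn
  · have := A.theta_one hr
    rw [this]; norm_num
  · exact theta_real A hA.dual
  · exact hν1
  · exact hν2
  · intro χ hχ
    unfold ArtinData.ord
    rw [hA.dual χ hχ]
  · intro χ hχ h1
    have h2 := hν1 χ hχ
    rw [h1] at h2
    obtain ⟨k, hk⟩ := hA.orth χ hχ (by rw [h2]; simp)
    have h3 : A.ord χ = 2 * k := by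
      have h4 := A.coe_ord hχ
      rw [hk] at h4
      exact WithTop.coe_injective h4
    exact ⟨k, by rw [h3]; ring⟩

/-- order zero at the top -/
theorem ord_zero (A : ArtinData G s₀)
    (hr : meromorphicOrderAt (A.Lin ⊥ 1) s₀ = ((0 : ℕ) : WithTop ℤ)) {χ : G → ℂ} (hχ : χ ∈ Irr G) :
    A.ord χ = 0 := by
  classical
  have : Fintype G := Fintype.ofFinite G
  have hG : (Nat.card G : ℂ) ≠ 0 := by exact_mod_cast Nat.card_pos.ne'
  have h1 := A.theta_one hr
  have h2 : ∀ g : G, (theta A.ord : G → ℂ) g = 0 := by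
    intro g
    have h3 := A.isHeilbronn.norm_le g
    rw [h1] at h3
    simpa using h3
  have h4 := theta_pair A.ord hχ
  simp only [h2, zero_mul, Finset.sum_const_zero] at h4
  have h5 := (mul_eq_zero.mp h4.symm).resolve_right hG
  exact_mod_cast h5

end Pool.Agent.U398.Art
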