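import Mathlib
import Pool.Agent.U398.Art.Central
import Pool.Agent.H541R3.ART.Sym

/-!
# Symmetric and alternating groups at the central point
-/

set_option autoImplicit false
set_option linter.unusedSectionVars false

namespace Pool.Agent.U398.Art

open Pool.Agent.H302R2 Pool.Agent.H541R3.ART Equiv Equiv.Perm Filter Topology Pool.Agent.H302R10

section blocks

variable {α : Type*} [Fintype α] [DecidableEq α] {θ : alternatingGroup α → ℂ}
variable {F : Type} [Field F] [Fintype F] [DecidableEq F] {m : ℕ}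

lemma trans_inj : Function.Injective (trans m F) := by
  intro a b h
  apply Multiplicative.toAdd.injective
  funext i
  have h1 := congrArg (fun π : Perm (Fin m × F) => (π (i, 0)).2) h
  simpa [Pool.Agent.H302R2.trans] using h1

lemma blockHom_inj (hF : 4 ≤ Fintype.card F) (f : Fin m × F ↪ α) :
    Function.Injective (blockHom hF f) := by
  intro a b h
  apply trans_inj
  apply viaEmbeddingHom_injective f
  exact congrArg Subtype.val h

/-- The doubled degree bound forces all the block translations into the kernel. -/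
theorem block_kernel_even (hθ : IsHeilbronn θ) (hE : EvenMult θ) (hF : 4 ≤ Fintype.card F)
    (hFe : Even (Fintype.card F)) (f : Fin m × F ↪ α) {r : ℕ} (hr : θ 1 = r)
    (hlt : r < 2 * ((Fintype.card F - 1) * m)) (a : Fin m → F) :
    θ (blockHom hF f (Multiplicative.ofAdd a)) = θ 1 := by
  classical
  set t : (Fin m → F) → ℂ := fun a => θ (blockHom hF f (Multiplicative.ofAdd a)) with ht
  -- additive character
  set e : AddChar F ℂ := AddChar.FiniteField.primitiveChar_to_Complex F with he
  have heprim : e.IsPrimitive := AddChar.FiniteField.primitiveChar_to_Complex_isPrimitive F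
  let χ : (Fin m → F) → Multiplicative (Fin m → F) →* ℂˣ := fun y =>
    MonoidHom.toHomUnits
      { toFun := fun a => e (∑ i, y i * Multiplicative.toAdd a i)
        map_one' := by simp
        map_mul' := fun a b => by
          rw [← AddChar.map_add_eq_mul, ← Finset.sum_add_distrib]
          congr 1
          refine Finset.sum_congr rfl fun i _ => ?_
          rw [toAdd_mul, Pi.add_apply, mul_add] }
  have hχ : ∀ y a, ((χ y (Multiplicative.ofAdd a) : ℂˣ) : ℂ) = e (∑ i, y i * a i) :=
    fun y a => rfl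
  have hchar : ∀ x : F, x + x = 0 := fun x => by
    have h1 : ((Fintype.card F : ℕ) : F) = 0 := Nat.cast_card_eq_zero F
    obtain ⟨k, hk⟩ := hFe
    have h2 : (2 : F) = 0 := by
      obtain ⟨p, hp⟩ := CharP.exists F
      have h3 : p ∣ Fintype.card F := (CharP.cast_eq_zero_iff F p _).mp h1
      have hpp : p.Prime := CharP.char_is_prime F p
      obtain ⟨j, hj⟩ := FiniteField.card F p
      have h4 : 2 ∣ p ^ ((j : ℕ+) : ℕ) := by
        rw [← hj.2, hk]; exact ⟨k, by ring⟩
      have h5 : 2 ∣ p := Nat.prime_two.dvd_of_dvd_pow h4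
      have h6 : p = 2 := ((Nat.prime_dvd_prime_iff_eq Nat.prime_two hpp).mp h5).symm
      have h7 : ((2 : ℕ) : F) = 0 := (CharP.cast_eq_zero_iff F p 2).mpr (by rw [h6])
      exact_mod_cast h7
    rw [← two_mul, h2, zero_mul]
  have hm : ∀ y, ∃ k : ℕ, ∑ a : Multiplicative (Fin m → F), θ (blockHom hF f a)
      * (((χ y a)⁻¹ : ℂˣ) : ℂ) = ((2 * k : ℕ) : ℂ) * Nat.card (Multiplicative (Fin m → F)) := by
    intro y
    refine hE.mult_inj (blockHom hF f) (blockHom_inj hF f) (χ y) fun a => ?_
    rw [← map_pow]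
    have h1 : a ^ 2 = 1 := by
      rw [sq]
      change Multiplicative.ofAdd (Multiplicative.toAdd a + Multiplicative.toAdd a) = 1
      have h2 : Multiplicative.toAdd a + Multiplicative.toAdd a = 0 := by
        funext i
        exact hchar _
      rw [h2]; rfl
    rw [h1, map_one]
  choose n' hn'' using hm
  set n : (Fin m → F) → ℕ := fun y => 2 * n' y with hndef
  have hn : ∀ y, ∑ a : Multiplicative (Fin m → F), θ (blockHom hF f a)
      * (((χ y a)⁻¹ : ℂˣ) : ℂ) = (n y : ℂ) * Nat.card (Multiplicative (Fin m → F)) := hn''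
  have hcardV : (Nat.card (Multiplicative (Fin m → F)) : ℂ) = (Fintype.card F : ℂ) ^ m := by
    rw [Nat.card_eq_fintype_card, Fintype.card_multiplicative, Fintype.card_fun, Fintype.card_fin]
    push_cast; rfl
  have hn' : ∀ y, ∑ a : Fin m → F, t a * e (-∑ i, y i * a i) = n y * (Fintype.card F : ℂ) ^ m := by
    intro y
    rw [← hcardV, ← hn y, ← Multiplicative.ofAdd.sum_comp]
    refine Finset.sum_congr rfl fun a _ => ?_
    rw [Units.val_inv_eq_inv_val, hχ, AddChar.map_neg_eq_inv]
  have hq : ((Fintype.card F : ℂ) ^ m) ≠ 0 := pow_ne_zero _ (by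
    exact_mod_cast Fintype.card_ne_zero)
  -- invariance of n
  have hinv : ∀ y z : Fin m → F, wt y = wt z → n y = n z := by
    intro y z hyz
    obtain ⟨u, σ, huσ⟩ := exists_monomial hyz
    have h1 : ∑ a : Fin m → F, t a * e (-∑ i, y i * a i)
        = ∑ a : Fin m → F, t a * e (-∑ i, z i * a i) := by
      -- substitution a ↦ (i ↦ (u i)⁻¹ * a (σ i)) in the second sum
      let T : (Fin m → F) ≃ (Fin m → F) :=
        { toFun := fun a i => ((u i)⁻¹ : Fˣ) * a (σ i)
          invFun := fun a i => (u (σ⁻¹ i) : F) * a (σ⁻¹ i)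
          left_inv := fun a => by
            ext i
            simp only [perm_mul_inv_apply, Units.mul_inv_cancel_left]
          right_inv := fun a => by
            ext i
            simp only [perm_inv_mul_apply, Units.inv_mul_cancel_left] }
      rw [← T.sum_comp (fun a => t a * e (-∑ i, z i * a i))]
      refine Finset.sum_congr rfl fun a _ => ?_
      have h2 : t (T a) = t a := blockHom_mono hθ hF hFe f u σ a
      have h3 : ∑ i, z i * (T a) i = ∑ i, y i * a i := by
        rw [← Equiv.sum_comp σ (fun i => y i * a i)]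
        refine Finset.sum_congr rfl fun i _ => ?_
        change z i * (((u i)⁻¹ : Fˣ) * a (σ i)) = _
        rw [huσ i]
        have : (u i : F) * (((u i)⁻¹ : Fˣ) : F) = 1 := Units.mul_inv _
        calc (u i : F) * y (σ i) * ((((u i)⁻¹ : Fˣ) : F) * a (σ i))
            = ((u i : F) * (((u i)⁻¹ : Fˣ) : F)) * (y (σ i) * a (σ i)) := by ring
          _ = y (σ i) * a (σ i) := by rw [this, one_mul]
      rw [h2, h3]
    rw [hn', hn'] at h1
    exact_mod_cast mul_right_cancel₀ hq h1
  -- total multiplicity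
  have htot : ∑ y, n y = r := by
    have h1 : ∑ y : Fin m → F, ∑ a : Fin m → F, t a * e (-∑ i, y i * a i)
        = (∑ y, (n y : ℂ)) * (Fintype.card F : ℂ) ^ m := by
      rw [Finset.sum_congr rfl (fun y _ => hn' y), Finset.sum_mul]
    rw [Finset.sum_comm] at h1
    have h2 : ∀ a : Fin m → F, ∑ y : Fin m → F, t a * e (-∑ i, y i * a i)
        = if a = 0 then t 0 * (Fintype.card F : ℂ) ^ m else 0 := by
      intro a
      rw [← Finset.mul_sum]
      have h3 : ∀ y : Fin m → F, e (-∑ i, y i * a i) = ∏ i, e (y i * (-a i)) := by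
        intro y
        rw [← Finset.sum_neg_distrib]
        rw [addChar_sum]
        refine Finset.prod_congr rfl fun i _ => by rw [mul_neg]
      rw [Finset.sum_congr rfl (fun y _ => h3 y)]
      have h4 := Finset.prod_univ_sum (fun _ : Fin m => (Finset.univ : Finset F))
        (fun i x => e (x * (-a i)))
      rw [Fintype.piFinset_univ] at h4
      rw [← h4]
      by_cases ha : a = 0
      · subst ha
        simp
      · rw [if_neg ha]
        obtain ⟨i, hi⟩ := Function.ne_iff.mp ha
        have h5 : ∑ x : F, e (x * (-a i)) = 0 := by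
          rw [AddChar.sum_mulShift _ heprim, if_neg (by simpa using hi)]
          simp
        rw [Finset.prod_eq_zero (Finset.mem_univ i) h5, mul_zero]
    rw [Finset.sum_congr rfl (fun a _ => h2 a)] at h1
    simp only [Finset.sum_ite_eq', Finset.mem_univ, if_true] at h1
    have h6 := mul_right_cancel₀ hq h1
    have h7 : t 0 = r := by
      rw [← hr, ht]
      simp only [ofAdd_zero, map_one]
    rw [h7] at h6
    exact_mod_cast h6.symm
  -- all nontrivial multiplicities vanish
  have hzero : ∀ y : Fin m → F, y ≠ 0 → n y = 0 := by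
    intro y hy
    by_contra hcon
    have hwt1 : 1 ≤ wt y := by
      obtain ⟨i, hi⟩ := Function.ne_iff.mp hy
      rw [wt, Nat.one_le_iff_ne_zero, Finset.card_ne_zero]
      exact ⟨i, by simpa using hi⟩
    have hwtm : wt y ≤ m := by
      rw [wt]
      exact (Finset.card_filter_le _ _).trans (by simp)
    have h1 := card_wt_ge (F := F) (by omega) hwt1 hwtm
    have h2 : 2 * (Finset.univ.filter fun z : Fin m → F => wt z = wt y).card ≤ ∑ z, n z := by
      calc 2 * (Finset.univ.filter fun z : Fin m → F => wt z = wt y).card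
          = ∑ z ∈ Finset.univ.filter (fun z : Fin m → F => wt z = wt y), 2 := by
            simp [mul_comm]
        _ ≤ ∑ z ∈ Finset.univ.filter (fun z : Fin m → F => wt z = wt y), n z := by
            refine Finset.sum_le_sum fun z hz => ?_
            have h9 := hinv y z (Finset.mem_filter.mp hz).2.symm
            have h10 : n z = 2 * n' z := rfl
            omega
        _ ≤ ∑ z, n z := Finset.sum_le_sum_of_subset (Finset.filter_subset _ _)
    rw [htot] at h2
    omega
  -- conclusion
  have hn0 : (n 0 : ℂ) = r := by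
    have : ∑ y, n y = n 0 := Finset.sum_eq_single 0 (fun y _ hy => hzero y hy) (by simp)
    rw [htot] at this
    exact_mod_cast this.symm
  have hsum := hn' 0
  simp only [Pi.zero_apply, zero_mul, Finset.sum_const_zero, neg_zero, AddChar.map_zero_eq_one,
    mul_one] at hsum
  rw [hn0] at hsum
  have hnn : ∀ b ∈ (Finset.univ : Finset (Fin m → F)), (0 : ℝ) ≤ r - (t b).re := by
    intro b _
    have := (Complex.re_le_norm _).trans (hθ.norm_le (blockHom hF f (Multiplicative.ofAdd b)))
    rw [hr, Complex.natCast_re] at this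
    simp only [ht]; linarith
  have hsum0 : ∑ b : Fin m → F, ((r : ℝ) - (t b).re) = 0 := by
    have h1 := congrArg Complex.re hsum
    rw [Complex.re_sum] at h1
    rw [Finset.sum_sub_distrib, h1, Finset.sum_const, Finset.card_univ, Fintype.card_fun,
      Fintype.card_fin, nsmul_eq_mul]
    have : ((r : ℂ) * (Fintype.card F : ℂ) ^ m).re = r * (Fintype.card F : ℝ) ^ m := by
      have h8 : ((r : ℂ) * (Fintype.card F : ℂ) ^ m) = ((r * (Fintype.card F : ℝ) ^ m : ℝ) : ℂ) := by
        push_cast; rfl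
      rw [h8, Complex.ofReal_re]
    rw [this]
    push_cast; ring
  have h5 := (Finset.sum_eq_zero_iff_of_nonneg hnn).mp hsum0 a (Finset.mem_univ _)
  apply hθ.eq_deg_of_re
  rw [hr, Complex.natCast_re]
  simp only [ht] at h5
  linarith

end blocks

theorem alt_core_even {n k : ℕ} (hn : 5 ≤ n) (hk : 2 ≤ k) {θ : alternatingGroup (Fin n) → ℂ}
    (hθ : IsHeilbronn θ) (hE : EvenMult θ) {r : ℕ} (hr : θ 1 = r) (hlt : r < 2 * ((2 ^ k - 1) * (n / 2 ^ k)))
    (g : alternatingGroup (Fin n)) : θ g = θ 1 := by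
  classical
  set m := n / 2 ^ k with hm
  have hmpos : 0 < m := by
    rcases Nat.eq_zero_or_pos m with h | h
    · rw [h, mul_zero, mul_zero] at hlt; omega
    · exact h
  have : NeZero m := ⟨hmpos.ne'⟩
  have : Fact (Nat.Prime 2) := ⟨Nat.prime_two⟩
  let F := GaloisField 2 k
  have : Fintype F := Fintype.ofFinite F
  have hcardF : Fintype.card F = 2 ^ k := by
    rw [← Nat.card_eq_fintype_card]; exact GaloisField.card 2 k (by omega)
  have h4 : 4 ≤ Fintype.card F := by
    rw [hcardF]
    calc 4 = 2 ^ 2 := by norm_num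
      _ ≤ 2 ^ k := Nat.pow_le_pow_right (by norm_num) hk
  have heven : Even (Fintype.card F) := by
    rw [hcardF]; exact (Nat.even_pow.mpr ⟨even_two, by omega⟩)
  have hemb : Nonempty (Fin m × F ↪ Fin n) := by
    apply Function.Embedding.nonempty_of_card_le
    rw [Fintype.card_prod, Fintype.card_fin, Fintype.card_fin, hcardF, hm]
    exact Nat.div_mul_le_self n (2 ^ k)
  obtain ⟨f⟩ := hemb
  have hblock := block_kernel_even (F := F) (m := m) hθ hE h4 heven f hr (by rw [hcardF]; exact hlt)
  -- the involution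
  let a : Fin m → F := Pi.single 0 1
  set x : Perm (Fin n) := viaEmbeddingHom f (trans m F (Multiplicative.ofAdd a)) with hx
  have hxK : InK θ x := ⟨(blockHom h4 f (Multiplicative.ofAdd a)).2, hblock a⟩
  have hx2 : x * x = 1 := by
    rw [hx, ← map_mul, ← map_mul, ← ofAdd_add]
    have : a + a = 0 := by
      ext i
      simp only [Pi.add_apply, Pi.zero_apply]
      exact CharTwo.add_self_eq_zero _
    rw [this, ofAdd_zero, map_one, map_one]
  have hx1 : x ≠ 1 := by
    intro h
    have h1 : trans m F (Multiplicative.ofAdd a) = 1 := by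
      apply viaEmbeddingHom_injective f
      rw [map_one]; exact h
    have h2 := congrArg (fun π : Perm (Fin m × F) => π (0, 0)) h1
    simp [Pool.Agent.H302R2.trans, a] at h2
  have hD : HasDoubleSwaps θ := by
    intro a b c d hab hac had hbc hbd hcd
    exact hxK.double_swap hθ hx2 hx1 hab hac had hbc hbd hcd
  obtain ⟨h1, h2⟩ := InK.all hθ hD (by rw [Fintype.card_fin]; exact hn)
    (g := (g : Perm (Fin n))) (mem_alternatingGroup.mp g.2)
  exact h2

theorem sym_core_even {n k : ℕ} (hn : 5 ≤ n) (hk : 2 ≤ k) (G : Subgroup (Perm (Fin n)))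
    (hG : alternatingGroup (Fin n) ≤ G) {θ : G → ℂ} (hθ : IsHeilbronn θ)
    (hE : EvenMult θ) {r : ℕ}
    (hr : θ 1 = r) (hlt : r < 2 * ((2 ^ k - 1) * (n / 2 ^ k))) :
    ∃ a b : ℕ, ∀ g : G, θ g = a + b * ((Perm.sign (g : Perm (Fin n)) : ℤ) : ℂ) := by
  classical
  have : Fintype G := Fintype.ofFinite G
  have heven : ∀ g : G, Perm.sign (g : Perm (Fin n)) = 1 → θ g = r := by
    intro g hg
    have h1 := alt_core_even hn hk (hθ.comp (Subgroup.inclusion hG))
      (hE.comp_inj (Subgroup.inclusion hG) (Subgroup.inclusion_injective hG)) (r := r) (by simpa using hr) hlt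
      ⟨(g : Perm (Fin n)), mem_alternatingGroup.mpr hg⟩
    simp only [map_one] at h1
    rw [hr] at h1
    exact h1
  let χ : G →* ℤˣ := Perm.sign.comp G.subtype
  by_cases hodd : ∃ g₀ : G, χ g₀ = -1
  swap
  · push Not at hodd
    refine ⟨r, 0, fun g => ?_⟩
    rw [heven g ((Int.units_eq_one_or _).resolve_right (hodd g))]
    simp
  obtain ⟨g₀, hg₀⟩ := hodd
  have hoddc : ∀ g : G, χ g = -1 → θ g = θ g₀ := fun g hg =>
    index_two hθ χ (fun g hg => by rw [heven g hg, hr]) hg hg₀
  obtain ⟨a, ha⟩ := hθ.mult_hom (MonoidHom.id G) 1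
  obtain ⟨b, hb⟩ := hθ.mult_hom (MonoidHom.id G) (signToC.comp χ)
  simp only [MonoidHom.id_apply, MonoidHom.one_apply, inv_one, Units.val_one, mul_one] at ha
  have hsg : ∀ g : G, ((((signToC.comp χ) g)⁻¹ : ℂˣ) : ℂ) = ((χ g : ℤ) : ℂ) := by
    intro g
    rw [MonoidHom.comp_apply]
    rcases Int.units_eq_one_or (χ g) with h | h
    · rw [h]; simp
    · rw [h]; simp [signToC]
  simp only [MonoidHom.id_apply, hsg] at hb
  have hN : (Nat.card G : ℂ) ≠ 0 := by exact_mod_cast Nat.card_pos.ne'
  have hsum0 : ∑ g : G, ((χ g : ℤ) : ℂ) = 0 := by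
    have h1 : ∑ g : G, ((χ g : ℤ) : ℂ) = ∑ g : G, ((χ (g * g₀) : ℤ) : ℂ) :=
      (Equiv.sum_comp (Equiv.mulRight g₀) (fun g => ((χ g : ℤ) : ℂ))).symm
    have h2 : ∑ g : G, ((χ (g * g₀) : ℤ) : ℂ) = - ∑ g : G, ((χ g : ℤ) : ℂ) := by
      rw [← Finset.sum_neg_distrib]
      refine Finset.sum_congr rfl fun g _ => ?_
      rw [map_mul, hg₀]; simp
    rw [h2] at h1
    linear_combination h1 / 2
  have hab : (a : ℂ) + b = r := by
    apply mul_right_cancel₀ hN
    rw [add_mul, ← ha, ← hb, ← Finset.sum_add_distrib]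
    have : ∀ g : G, θ g + θ g * ((χ g : ℤ) : ℂ) = r + r * ((χ g : ℤ) : ℂ) := by
      intro g
      rcases Int.units_eq_one_or (χ g) with h | h
      · rw [heven g h]
      · rw [h]; simp
    rw [Finset.sum_congr rfl (fun g _ => this g), Finset.sum_add_distrib, ← Finset.mul_sum, hsum0,
      Finset.sum_const, Finset.card_univ, nsmul_eq_mul, Nat.card_eq_fintype_card]
    ring
  have hab' : (a : ℂ) - b = θ g₀ := by
    apply mul_right_cancel₀ hN
    rw [sub_mul, ← ha, ← hb, ← Finset.sum_sub_distrib]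
    have : ∀ g : G, θ g - θ g * ((χ g : ℤ) : ℂ) = θ g₀ - θ g₀ * ((χ g : ℤ) : ℂ) := by
      intro g
      rcases Int.units_eq_one_or (χ g) with h | h
      · rw [h]; simp
      · rw [hoddc g h]
    rw [Finset.sum_congr rfl (fun g _ => this g), Finset.sum_sub_distrib, ← Finset.mul_sum, hsum0,
      Finset.sum_const, Finset.card_univ, nsmul_eq_mul, Nat.card_eq_fintype_card]
    ring
  refine ⟨a, b, fun g => ?_⟩
  rcases Int.units_eq_one_or (χ g) with h | h
  · rw [heven g h, ← hab]
    have : Perm.sign (g : Perm (Fin n)) = 1 := h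
    rw [this]; simp
  · rw [hoddc g h, ← hab']
    have : Perm.sign (g : Perm (Fin n)) = -1 := h
    rw [this]; simp; ring

/-- **Artin's conjecture at a zero of small order**, symmetric and alternating groups. -/
theorem artin_sym_even {n k : ℕ} (hn : 5 ≤ n) (hk : 2 ≤ k) (G : Subgroup (Perm (Fin n)))
    (hG : alternatingGroup (Fin n) ≤ G) {s₀ : ℂ} (A : ArtinData G s₀) (hA : Central A)
    {r : ℕ}
    (hr : meromorphicOrderAt (A.Lin ⊥ 1) s₀ = (r : WithTop ℤ))
    (hlt : r < 2 * ((2 ^ k - 1) * (n / 2 ^ k))) (χ : G → ℂ) (hχ : χ ∈ Irr G) :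
    0 ≤ meromorphicOrderAt (A.L χ) s₀ ∧
    ((∃ g : G, (g : Perm (Fin n)) ∈ alternatingGroup (Fin n) ∧ χ g ≠ χ 1) →
      meromorphicOrderAt (A.L χ) s₀ = 0) := by
  classical
  have : Fintype G := Fintype.ofFinite G
  have hθ := A.isHeilbronn
  have h1 := A.theta_one hr
  obtain ⟨a, b, hab⟩ := sym_core_even hn hk G hG hθ (evenMult A hA) h1 hlt
  constructor
  · let ε : G →* ℂˣ := (Units.map (Int.castRingHom ℂ : ℤ →* ℂ)).comp (Perm.sign.comp G.subtype)
    have hε : ∀ g : G, ((ε g : ℂˣ) : ℂ) = ((Perm.sign (g : Perm (Fin n)) : ℤ) : ℂ) := fun g => rfl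
    obtain ⟨m₁, hm₁⟩ := pair_lin hχ (1 : G →* ℂˣ)
    obtain ⟨m₂, hm₂⟩ := pair_lin hχ ε
    have h2 : ∑ g : G, (theta A.ord : G → ℂ) g * χ g⁻¹
        = (((a * m₁ + b * m₂ : ℕ) : ℤ) : ℂ) * Nat.card G := by
      have h3 : ∀ g : G, (theta A.ord : G → ℂ) g * χ g⁻¹
          = a * ((((1 : G →* ℂˣ) g : ℂˣ) : ℂ) * χ g⁻¹) + b * (((ε g : ℂˣ) : ℂ) * χ g⁻¹) := by
        intro g
        rw [hab g, hε, MonoidHom.one_apply, Units.val_one]
        ring
      rw [Finset.sum_congr rfl (fun g _ => h3 g), Finset.sum_add_distrib, ← Finset.mul_sum,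
        ← Finset.mul_sum, hm₁, hm₂]
      push_cast
      ring
    rw [A.order_eq hχ h2]
    exact_mod_cast Int.natCast_nonneg _
  · rintro ⟨g, hg, hg1⟩
    have hN : ((alternatingGroup (Fin n)).subgroupOf G).Normal := inferInstance
    have h2 : ∀ m ∈ (alternatingGroup (Fin n)).subgroupOf G, ∀ x : G,
        (theta A.ord : G → ℂ) (m * x) = (theta A.ord : G → ℂ) x := by
      intro m hm x
      rw [Subgroup.mem_subgroupOf, mem_alternatingGroup] at hm
      rw [hab, hab, Subgroup.coe_mul, map_mul, hm, one_mul]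
    have h3 := pair_zero hχ ((alternatingGroup (Fin n)).subgroupOf G) h2
      (x := g) (by rw [Subgroup.mem_subgroupOf]; exact hg) hg1
    have h4 := A.order_eq hχ (k := 0) (by rw [h3]; simp)
    exact_mod_cast h4


end Pool.Agent.U398.Art
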