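import Mathlib
import Pool.Agent.U398.Art.Central

/-!
# The doubling principle
-/

set_option autoImplicit false
set_option linter.unusedSectionVars false

namespace Pool.Agent.U398.Art

open Pool.Agent.H302R2 Pool.Agent.H541R3.ART Filter Topology

variable {G : Type} [Group G] [Finite G] {s₀ : ℂ}

lemma pw_mero (s₀ : ℂ) (k : ℤ) : MeromorphicAt (fun s : ℂ => (s - s₀) ^ k) s₀ :=
  ((MeromorphicAt.id s₀).sub (MeromorphicAt.const s₀ s₀)).zpow k

lemma pw_order (s₀ : ℂ) (k : ℤ) :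
    meromorphicOrderAt (fun s : ℂ => (s - s₀) ^ k) s₀ = (k : WithTop ℤ) := by
  rw [meromorphicOrderAt_eq_int_iff (pw_mero s₀ k)]
  refine ⟨fun _ => 1, analyticAt_const, one_ne_zero, ?_⟩
  exact Filter.Eventually.of_forall fun s => by simp

/-- **Doubling.** If all irreducible characters are orthogonal then half the orders are the orders
of a family with the same formal properties. -/
theorem exists_half (A : ArtinData G s₀)
    (h : ∀ χ ∈ Irr G, ∃ k : ℤ, meromorphicOrderAt (A.L χ) s₀ = ((2 * k : ℤ) : WithTop ℤ)) :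
    ∃ B : ArtinData G s₀,
      (∀ χ ∈ Irr G, ∃ k : ℤ, meromorphicOrderAt (B.L χ) s₀ = (k : WithTop ℤ) ∧
        meromorphicOrderAt (A.L χ) s₀ = ((2 * k : ℤ) : WithTop ℤ)) ∧
      ∀ (H : Subgroup G) (ψ : H →* ℂˣ), ∃ k : ℤ,
        meromorphicOrderAt (B.Lin H ψ) s₀ = (k : WithTop ℤ) ∧
        meromorphicOrderAt (A.Lin H ψ) s₀ = ((2 * k : ℤ) : WithTop ℤ) := by
  classical
  choose! k hk using h
  have hord : ∀ χ ∈ Irr G, A.ord χ = 2 * k χ := by
    intro χ hχ
    have h4 := A.coe_ord hχ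
    rw [hk χ hχ] at h4
    exact WithTop.coe_injective h4
  have hm : ∀ (H : Subgroup G) (ψ : H →* ℂˣ), ∃ m : (G → ℂ) → ℕ, ∀ χ ∈ Irr G,
      ∑ᶠ h : H, χ h * (((ψ h)⁻¹ : ℂˣ) : ℂ) = (m χ : ℂ) * (Nat.card H : ℂ) := by
    intro H ψ
    choose! m hm using fun χ (hχ : χ ∈ Irr G) => exists_mult hχ H ψ
    exact ⟨m, hm⟩
  choose m hm using hm
  let j : (H : Subgroup G) → (H →* ℂˣ) → ℤ := fun H ψ => ∑ χ ∈ irrF G, (m H ψ χ : ℤ) * k χ
  have hj : ∀ (H : Subgroup G) (ψ : H →* ℂˣ),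
      meromorphicOrderAt (A.Lin H ψ) s₀ = ((2 * j H ψ : ℤ) : WithTop ℤ) := by
    intro H ψ
    rw [A.order_Lin H ψ (m H ψ) (hm H ψ)]
    congr 1
    simp only [j]
    rw [Finset.mul_sum]
    refine Finset.sum_congr rfl fun χ hχ => ?_
    rw [hord χ (mem_irrF.mp hχ)]
    ring
  let B : ArtinData G s₀ :=
    { L := fun χ s => (s - s₀) ^ k χ
      Lin := fun H ψ s => (s - s₀) ^ j H ψ
      mero := fun χ _ => ⟨pw_mero s₀ _, by rw [pw_order]; exact WithTop.coe_ne_top⟩
      hecke := fun H ψ => by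
        rw [pw_order]
        have h1 := A.hecke H ψ
        rw [hj H ψ] at h1
        have h2 : (0 : ℤ) ≤ 2 * j H ψ := by exact_mod_cast h1
        have h3 : (0 : ℤ) ≤ j H ψ := by omega
        exact_mod_cast h3
      induce := fun H ψ m' hm' => by
        have h1 : ∀ χ ∈ Irr G, m' χ = m H ψ χ := by
          intro χ hχ
          have h2 := hm' χ hχ
          rw [hm H ψ χ hχ] at h2
          have hH : (Nat.card H : ℂ) ≠ 0 := by exact_mod_cast Nat.card_pos.ne'
          have h3 := mul_right_cancel₀ hH h2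
          exact_mod_cast h3.symm
        filter_upwards [self_mem_nhdsWithin] with s hs
        have hs0 : s - s₀ ≠ 0 := sub_ne_zero.mpr hs
        rw [finprod_mem_eq_finite_toFinset_prod _ (irr_finite (G := G))]
        have h4 : ∀ F : Finset (G → ℂ), (s - s₀) ^ (∑ χ ∈ F, (m H ψ χ : ℤ) * k χ)
            = ∏ χ ∈ F, (s - s₀) ^ ((m H ψ χ : ℤ) * k χ) := by
          intro F
          induction F using Finset.induction_on with
          | empty => simp
          | insert x F hx ih => rw [Finset.sum_insert hx, Finset.prod_insert hx, zpow_add₀ hs0, ih]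
        change (s - s₀) ^ (∑ χ ∈ irrF G, (m H ψ χ : ℤ) * k χ) = _
        rw [h4]
        refine Finset.prod_congr rfl fun χ hχ => ?_
        rw [h1 χ (mem_irrF.mp hχ), ← zpow_natCast, ← zpow_mul, mul_comm (k χ)] }
  refine ⟨B, fun χ hχ => ⟨k χ, pw_order s₀ _, hk χ hχ⟩, fun H ψ => ⟨j H ψ, pw_order s₀ _, hj H ψ⟩⟩

end Pool.Agent.U398.Art
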