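import Mathlib
import Pool.Agent.Helper273_FS.Gen

/-!
# The multiplicity of a symplectic irreducible character in an orthogonal character is even
-/

set_option autoImplicit false
set_option linter.unusedSectionVars false

namespace Pool.Agent.U398.Art

open Representation Module Pool.Agent.Helper273.FS

/-- a space with a nondegenerate skew-symmetric form has even dimension -/
theorem even_of_skew {M : Type*} [AddCommGroup M] [Module ℂ M] [FiniteDimensional ℂ M]
    (β : M →ₗ[ℂ] M →ₗ[ℂ] ℂ) (hs : ∀ f f', β f' f = - β f f')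
    (hn : ∀ f, (∀ f', β f f' = 0) → f = 0) : Even (finrank ℂ M) := by
  classical
  let b := finBasis ℂ M
  let A : Matrix (Fin (finrank ℂ M)) (Fin (finrank ℂ M)) ℂ := fun i j => β (b i) (b j)
  have hA : A.transpose = -A := by
    ext i j
    exact hs (b i) (b j)
  have hdet : A.det ≠ 0 := by
    intro h0
    obtain ⟨v, hv0, hv⟩ := Matrix.exists_mulVec_eq_zero_iff.mpr h0
    have h1 : ∀ i, β (b i) (∑ j, v j • b j) = 0 := by
      intro i
      rw [map_sum]
      have h2 := congrFun hv i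
      simp only [Matrix.mulVec, dotProduct, Pi.zero_apply] at h2
      rw [← h2]
      refine Finset.sum_congr rfl fun j _ => ?_
      rw [map_smul, smul_eq_mul, mul_comm]
    have h3 : ∑ j, v j • b j = 0 := by
      apply hn
      intro f'
      rw [hs]
      have h5 : ∀ y, β y (∑ j, v j • b j) = 0 := by
        intro y
        have h6 : β.flip (∑ j, v j • b j) = 0 := b.ext h1
        exact LinearMap.congr_fun h6 y
      rw [h5, neg_zero]
    apply hv0
    funext j
    have h4 := Fintype.linearIndependent_iff.mp b.linearIndependent v h3 j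
    exact h4
  have h1 : A.det = (-1) ^ (finrank ℂ M) * A.det := by
    conv_lhs => rw [← Matrix.det_transpose, hA, Matrix.det_neg, Fintype.card_fin]
  by_contra hodd
  rw [Nat.not_even_iff_odd] at hodd
  rw [hodd.neg_one_pow] at h1
  apply hdet
  linear_combination h1 / 2

section forms

variable {H : Type} [Group H] [Fintype H] {V W : Type} [AddCommGroup V] [Module ℂ V]
  [FiniteDimensional ℂ V] [AddCommGroup W] [Module ℂ W] [FiniteDimensional ℂ W]
  {ρ : Representation ℂ H V} {σ : Representation ℂ H W}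

lemma adj {C : W →ₗ[ℂ] W →ₗ[ℂ] ℂ} (hCi : ∀ g v w, C (σ g v) (σ g w) = C v w) (g : H) (v w : W) :
    C (σ g v) w = C v (σ g⁻¹ w) := by
  have h2 := hCi g v (σ g⁻¹ w)
  rwa [← Module.End.mul_apply, ← map_mul, mul_inv_cancel, map_one, Module.End.one_apply] at h2

lemma form_inj (hσ : σ.IsIrreducible) (C : W →ₗ[ℂ] W →ₗ[ℂ] ℂ) (hC0 : C ≠ 0)
    (hCi : ∀ g v w, C (σ g v) (σ g w) = C v w) : Function.Injective C := by
  rw [← LinearMap.ker_eq_bot]
  by_contra hne
  have h1 := irr_top hσ (LinearMap.ker C) (by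
    intro g w hw
    rw [LinearMap.mem_ker] at hw ⊢
    ext v
    rw [adj hCi, hw]
    rfl) ((Submodule.ne_bot_iff _).1 hne)
  apply hC0
  rwa [LinearMap.ker_eq_top] at h1

lemma form_surj (C : W →ₗ[ℂ] W →ₗ[ℂ] ℂ) (h : Function.Injective C) : Function.Surjective C :=
  (LinearMap.injective_iff_surjective_of_finrank_eq_finrank
    (Subspace.dual_finrank_eq (K := ℂ) (V := W)).symm).1 h

/-- invariant forms on an irreducible representation are proportional -/
lemma form_unique (hσ : σ.IsIrreducible) (C : W →ₗ[ℂ] W →ₗ[ℂ] ℂ) (hC0 : C ≠ 0)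
    (hCi : ∀ g v w, C (σ g v) (σ g w) = C v w) (F : W →ₗ[ℂ] W →ₗ[ℂ] ℂ)
    (hFi : ∀ g v w, F (σ g v) (σ g w) = F v w) : ∃ c : ℂ, ∀ v w, F v w = c * C v w := by
  have hinj := form_inj hσ C hC0 hCi
  let e : W ≃ₗ[ℂ] (W →ₗ[ℂ] ℂ) := LinearEquiv.ofBijective C ⟨hinj, form_surj C hinj⟩
  have he : ∀ x, C (e.symm x) = x := fun x => e.apply_symm_apply x
  let T : W →ₗ[ℂ] W := e.symm.toLinearMap ∘ₗ F
  have hT : ∀ v, C (T v) = F v := fun v => he _
  obtain ⟨c, hc⟩ := schur hσ T (by
    intro g w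
    apply hinj
    ext x
    rw [hT, adj hFi, adj hCi, hT])
  refine ⟨c, fun v w => ?_⟩
  rw [← hT, hc, map_smul, LinearMap.smul_apply, smul_eq_mul]

/-- **Parity.** A symplectic irreducible representation occurs with even multiplicity in an
orthogonal representation. -/
theorem even_mult (hσ : σ.IsIrreducible) (B : V →ₗ[ℂ] V →ₗ[ℂ] ℂ)
    (hBn : Function.Injective B) (hBs : ∀ v w, B v w = B w v)
    (hBi : ∀ h v w, B (ρ h v) (ρ h w) = B v w)
    (C : W →ₗ[ℂ] W →ₗ[ℂ] ℂ) (hC0 : C ≠ 0) (hCa : ∀ v w, C v w = - C w v)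
    (hCi : ∀ h v w, C (σ h v) (σ h w) = C v w) :
    Even (finrank ℂ (IntertwiningMap σ ρ)) := by
  classical
  have hH : (Nat.card H : ℂ) ≠ 0 := by exact_mod_cast Nat.card_pos.ne'
  -- vectors with `C w₀ w₁ = 1`
  obtain ⟨w₀, w₁, hw⟩ : ∃ w₀ w₁, C w₀ w₁ ≠ 0 := by
    by_contra hcon
    push Not at hcon
    apply hC0
    ext v w
    exact hcon v w
  let ev : W → IntertwiningMap σ ρ →ₗ[ℂ] V := fun w =>
    { toFun := fun f => f w
      map_add' := fun f f' => rfl
      map_smul' := fun c f => rfl }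
  let β : IntertwiningMap σ ρ →ₗ[ℂ] IntertwiningMap σ ρ →ₗ[ℂ] ℂ :=
    (B.compl₁₂ (ev w₀) (ev w₁))
  have hβ : ∀ f f', β f f' = B (f w₀) (f' w₁) := fun f f' => rfl
  have hint : ∀ (f : IntertwiningMap σ ρ) h w, f (σ h w) = ρ h (f w) := fun f h w =>
    IntertwiningMap.isIntertwining σ ρ f h w
  -- the constants
  have hc : ∀ f f' : IntertwiningMap σ ρ, ∃ c : ℂ, ∀ v w, B (f v) (f' w) = c * C v w := by
    intro f f'
    obtain ⟨c, hc⟩ := form_unique hσ C hC0 hCi (B.compl₁₂ f.toLinearMap f'.toLinearMap) (by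
      intro g v w
      change B (f (σ g v)) (f' (σ g w)) = B (f v) (f' w)
      rw [hint, hint, hBi])
    exact ⟨c, hc⟩
  choose c hc using hc
  have hcs : ∀ f f', c f' f = - c f f' := by
    intro f f'
    have h1 : c f' f * C w₀ w₁ = -(c f f') * C w₀ w₁ := by
      rw [← hc, hBs, hc, hCa w₁ w₀]
      ring
    exact mul_right_cancel₀ hw h1
  refine even_of_skew β ?_ ?_
  · intro f f'
    rw [hβ, hβ, hc, hc, hcs]
    ring
  · intro f hf
    by_contra hne
    -- `f` is injective
    have hfinj : Function.Injective f.toLinearMap := by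
      rw [← LinearMap.ker_eq_bot]
      by_contra hk
      have h1 := irr_top hσ (LinearMap.ker f.toLinearMap) (by
        intro g w hw
        rw [LinearMap.mem_ker] at hw ⊢
        change f (σ g w) = 0
        change f w = 0 at hw
        rw [hint, hw, map_zero]) ((Submodule.ne_bot_iff _).1 hk)
      apply hne
      apply IntertwiningMap.toLinearMap_injective
      rw [LinearMap.ker_eq_top] at h1
      exact h1
    -- a retraction
    obtain ⟨g0, hg0⟩ := LinearMap.exists_leftInverse_of_injective f.toLinearMap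
      (LinearMap.ker_eq_bot.mpr hfinj)
    have hg0' : ∀ w, g0 (f w) = w := fun w => LinearMap.congr_fun hg0 w
    let p : V →ₗ[ℂ] W := (Nat.card H : ℂ)⁻¹ • ∑ h : H, (σ h) ∘ₗ g0 ∘ₗ (ρ h⁻¹)
    have hp : ∀ v, p v = (Nat.card H : ℂ)⁻¹ • ∑ h : H, σ h (g0 (ρ h⁻¹ v)) := by
      intro v
      simp [p, LinearMap.sum_apply]
    have hpf : ∀ w, p (f w) = w := by
      intro w
      rw [hp]
      have h1 : ∀ h : H, σ h (g0 (ρ h⁻¹ (f w))) = w := by
        intro h
        rw [← hint, hg0', ← Module.End.mul_apply, ← map_mul, mul_inv_cancel, map_one,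
          Module.End.one_apply]
      simp only [h1]
      rw [Finset.sum_const, Finset.card_univ, ← Nat.card_eq_fintype_card, ← Nat.cast_smul_eq_nsmul ℂ,
        smul_smul, inv_mul_cancel₀ hH, one_smul]
    have hpe : ∀ x v, p (ρ x v) = σ x (p v) := by
      intro x v
      rw [hp, hp, map_smul, map_sum]
      congr 1
      refine Fintype.sum_equiv (Equiv.mulLeft x⁻¹) _ _ ?_
      intro h
      rw [Equiv.coe_mulLeft, ← Module.End.mul_apply (σ x), ← map_mul, mul_inv_cancel_left,
        mul_inv_rev, inv_inv, map_mul ρ h⁻¹ x, Module.End.mul_apply]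
    -- the adjoint
    let e : V ≃ₗ[ℂ] (V →ₗ[ℂ] ℂ) := LinearEquiv.ofBijective B ⟨hBn, form_surj B hBn⟩
    have he : ∀ x, B (e.symm x) = x := fun x => e.apply_symm_apply x
    let f1 : W →ₗ[ℂ] V := e.symm.toLinearMap ∘ₗ (LinearMap.lcomp ℂ ℂ p) ∘ₗ C
    have hf1 : ∀ w v, B (f1 w) v = C w (p v) := by
      intro w v
      have h1 := he ((LinearMap.lcomp ℂ ℂ p) (C w))
      have h2 := LinearMap.congr_fun h1 v
      exact h2
    have hf1e : ∀ x w, f1 (σ x w) = ρ x (f1 w) := by
      intro x w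
      apply hBn
      ext v
      have hBadj : B (ρ x (f1 w)) v = B (f1 w) (ρ x⁻¹ v) := adj hBi x (f1 w) v
      rw [hf1, hBadj, hf1, hpe, adj hCi]
    let f' : IntertwiningMap σ ρ :=
      { toLinearMap := f1
        isIntertwining' := by
          intro g
          ext w
          exact hf1e g w }
    have h1 := hf f'
    rw [hβ, hBs] at h1
    have h2 : B (f1 w₁) (f w₀) = C w₁ w₀ := by rw [hf1, hpf]
    have h3 : B (f' w₁) (f w₀) = C w₁ w₀ := h2
    rw [h3, hCa] at h1
    exact hw (neg_eq_zero.mp h1)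

/-- a self-dual irreducible representation has an invariant form -/
theorem exists_form (hσ : σ.IsIrreducible) (hself : ∀ g : H, σ.character g⁻¹ = σ.character g) :
    ∃ C : W →ₗ[ℂ] W →ₗ[ℂ] ℂ, C ≠ 0 ∧ ∀ h v w, C (σ h v) (σ h w) = C v w := by
  have hH : (Nat.card H : ℂ) ≠ 0 := by exact_mod_cast Nat.card_pos.ne'
  have : Invertible (Nat.card H : ℂ) := invertibleOfNonzero hH
  have h1 := card_inv_mul_sum_char_mul_char_eq_finrank σ σ.dual
  have h2 := card_inv_mul_sum_char_mul_char_eq_finrank σ σ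
  have h3 : finrank ℂ (IntertwiningMap σ σ) = 1 := by
    have := hσ
    simp
  rw [h3] at h2
  have h4 : ∀ g, σ.dual.character g = σ.character g := fun g => by rw [char_dual, hself]
  simp only [h4] at h1
  rw [h2] at h1
  have h5 : finrank ℂ (IntertwiningMap σ σ.dual) = 1 := by exact_mod_cast h1.symm
  obtain ⟨f, hf, -⟩ := finrank_eq_one_iff'.mp h5
  refine ⟨f.toLinearMap, fun h => hf (IntertwiningMap.toLinearMap_injective _ _ h), ?_⟩
  intro h v w
  change f (σ h v) (σ h w) = f v w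
  rw [IntertwiningMap.isIntertwining σ σ.dual f h v]
  change (f v) (σ h⁻¹ (σ h w)) = f v w
  rw [← Module.End.mul_apply, ← map_mul, inv_mul_cancel, map_one, Module.End.one_apply]

/-- the sign of the form -/
theorem form_sign (hσ : σ.IsIrreducible) (C : W →ₗ[ℂ] W →ₗ[ℂ] ℂ) (hC0 : C ≠ 0)
    (hCi : ∀ h v w, C (σ h v) (σ h w) = C v w) (v w : W) : C w v = nu σ * C v w := by
  obtain ⟨c, hc⟩ := form_unique hσ C hC0 hCi C.flip (fun g v w => hCi g w v)
  have h1 := nu_of_form hσ C hC0 hCi c (fun v w => hc v w)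
  rw [h1]
  exact hc v w

end forms

end Pool.Agent.U398.Art
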