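import Mathlib
import Pool.Agent.U398.Art.Two
import Pool.Agent.U398.Art.Par
import Pool.Agent.H302R2.QF

/-!
# Restrictions of orthogonal characters; no quaternion restrictions
-/

set_option autoImplicit false
set_option linter.unusedSectionVars false

namespace Pool.Agent.U398.Art

open Pool.Agent.H302R2 Pool.Agent.H541R3.ART Pool.Agent.W446.AS Pool.Agent.Helper273.FS
open Representation Module

variable {G : Type} [Group G] [Finite G]

lemma nu_eq [Fintype G] {n : ℕ} (ρ : Representation ℂ G (Fin n → ℂ)) : nu ρ = ind ρ.character := by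
  rw [nu, ind, finsum_eq_sum_of_fintype, div_eq_inv_mul]

/-- **Parity.** -/
theorem mult_even [Fintype G] (K : Subgroup G) [Fintype K] {χ : G → ℂ} (hχ : χ ∈ Irr G)
    (hi : ind χ = 1) {σ : K → ℂ} (hσ : σ ∈ Irr K) (hs : ind σ = -1) :
    ∃ k : ℕ, ∑ h : K, χ h * σ h⁻¹ = (2 * k : ℂ) * Nat.card K := by
  have hK : (Nat.card K : ℂ) ≠ 0 := by exact_mod_cast Nat.card_pos.ne'
  have : Invertible (Nat.card K : ℂ) := invertibleOfNonzero hK
  have hself : ∀ g, χ g⁻¹ = χ g := by
    obtain ⟨ν, h1, h2⟩ := ind_cases hχ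
    rcases h2 with ⟨h3, -⟩ | ⟨-, h3⟩
    · rw [hi, h3] at h1
      norm_num at h1
    · exact fun g => congrFun h3 g
  have hselfσ : ∀ g, σ g⁻¹ = σ g := by
    obtain ⟨ν, h1, h2⟩ := ind_cases hσ
    rcases h2 with ⟨h3, -⟩ | ⟨-, h3⟩
    · rw [hs, h3] at h1
      norm_num at h1
    · exact fun g => congrFun h3 g
  obtain ⟨n, ρ, hρ, rfl⟩ := hχ
  obtain ⟨m, τ, hτ, rfl⟩ := hσ
  obtain ⟨B, hB0, hBi⟩ := exists_form hρ hself
  obtain ⟨C, hC0, hCi⟩ := exists_form hτ hselfσ
  have h1 : ∀ v w, B v w = B w v := by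
    intro v w
    rw [form_sign hρ B hB0 hBi w v, nu_eq, hi, one_mul]
  have h2 : ∀ v w, C v w = - C w v := by
    intro v w
    rw [form_sign hτ C hC0 hCi w v, nu_eq, hs]
    ring
  let ρK : Representation ℂ K (Fin n → ℂ) := ρ.comp K.subtype
  obtain ⟨k, hk⟩ := even_mult (ρ := ρK) hτ B (form_inj hρ B hB0 hBi) h1 (fun h v w => hBi h v w)
    C hC0 h2 hCi
  refine ⟨k, ?_⟩
  have h3 := card_inv_mul_sum_char_mul_char_eq_finrank τ ρK
  rw [hk] at h3
  have h4 : ∑ h : K, ρK.character h * τ.character h⁻¹ = (2 * k : ℂ) * Nat.card K := by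
    rw [inv_mul_eq_iff_eq_mul₀ hK] at h3
    rw [h3]
    push_cast
    ring
  exact h4

lemma theta_virt (n : (G → ℂ) → ℤ) : Virt (theta n : G → ℂ) := by
  have h1 : (theta n : G → ℂ) = ∑ χ ∈ irrF G, n χ • χ := by
    funext g
    unfold theta
    rw [Finset.sum_apply]
    exact Finset.sum_congr rfl fun χ _ => by simp
  rw [h1]
  exact sum_mem fun χ hχ => zsmul_mem (AddSubgroup.subset_closure (mem_irrF.mp hχ)) _

lemma sum_quat : ∑ q : QuaternionGroup 2, quatChar q * quatChar q⁻¹ = 8 ∧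
    ∑ q : QuaternionGroup 2, quatChar (q ^ 2) = -8 := by
  have e : ∀ F : QuaternionGroup 2 → ℂ, ∑ q : QuaternionGroup 2, F q
      = (F (.a 0) + F (.a 1) + F (.a 2) + F (.a 3)) +
        (F (.xa 0) + F (.xa 1) + F (.xa 2) + F (.xa 3)) := by
    intro F
    have h1 : (Finset.univ : Finset (QuaternionGroup 2))
        = {.a 0, .a 1, .a 2, .a 3, .xa 0, .xa 1, .xa 2, .xa 3} := by decide
    rw [h1]
    repeat rw [Finset.sum_insert (by decide)]
    rw [Finset.sum_singleton]
    ring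
  have v0 : quatChar (.a 0) = 2 := by simp [quatChar]
  have v1 : quatChar (.a 1) = 0 := by
    simp only [quatChar]
    rw [if_neg (by decide), if_neg (by decide)]
  have v2 : quatChar (.a 2) = -2 := by
    simp only [quatChar]
    rw [if_neg (by decide)]
    simp
  have v3 : quatChar (.a 3) = 0 := by
    simp only [quatChar]
    rw [if_neg (by decide), if_neg (by decide)]
  have vx : ∀ i, quatChar (.xa i) = 0 := fun i => rfl
  constructor
  · rw [e]
    have i0 : (QuaternionGroup.a 0 : QuaternionGroup 2)⁻¹ = .a 0 := by decide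
    have i2 : (QuaternionGroup.a 2 : QuaternionGroup 2)⁻¹ = .a 2 := by decide
    rw [i0, i2, v0, v1, v2, v3, vx, vx, vx, vx]
    ring
  · rw [e]
    have i0 : (QuaternionGroup.a 0 : QuaternionGroup 2) ^ 2 = .a 0 := by decide
    have i1 : (QuaternionGroup.a 1 : QuaternionGroup 2) ^ 2 = .a 2 := by decide
    have i2 : (QuaternionGroup.a 2 : QuaternionGroup 2) ^ 2 = .a 0 := by decide
    have i3 : (QuaternionGroup.a 3 : QuaternionGroup 2) ^ 2 = .a 2 := by decide
    have j0 : (QuaternionGroup.xa 0 : QuaternionGroup 2) ^ 2 = .a 2 := by decide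
    have j1 : (QuaternionGroup.xa 1 : QuaternionGroup 2) ^ 2 = .a 2 := by decide
    have j2 : (QuaternionGroup.xa 2 : QuaternionGroup 2) ^ 2 = .a 2 := by decide
    have j3 : (QuaternionGroup.xa 3 : QuaternionGroup 2) ^ 2 = .a 2 := by decide
    rw [i0, i1, i2, i3, j0, j1, j2, j3, v0, v2]
    ring

/-- **No quaternion restrictions.** -/
theorem theta_QF (n : (G → ℂ) → ℤ) (h2 : (theta n : G → ℂ) 1 = 2)
    (horth : ∀ χ ∈ Irr G, ind χ = 1) : QF (theta n : G → ℂ) := by
  classical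
  intro K f hf hq
  have : Fintype G := Fintype.ofFinite G
  have : Fintype K := Fintype.ofFinite K
  have hK : (Nat.card K : ℂ) ≠ 0 := by exact_mod_cast Nat.card_pos.ne'
  set σ : K → ℂ := fun h => theta n (h : G) with hσd
  have hσq : ∀ h, σ h = quatChar (f h) := hq
  have hcard : (Nat.card K : ℂ) = (Nat.card f.ker : ℂ) * 8 := by
    have h3 : Nat.card K = Nat.card f.ker * Nat.card (QuaternionGroup 2) := by
      rw [← Nat.card_congr (QuotientGroup.quotientKerEquivOfSurjective f hf).toEquiv, mul_comm]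
      exact Subgroup.card_eq_card_quotient_mul_card_subgroup _
    rw [h3]
    have h4 : Nat.card (QuaternionGroup 2) = 8 := by
      rw [Nat.card_eq_fintype_card]; decide
    rw [h4]; push_cast; ring
  have hnorm : ∑ h : K, σ h * σ h⁻¹ = Nat.card K := by
    have h3 := sum_comp_surj f hf (fun q => quatChar q * quatChar q⁻¹)
    rw [sum_quat.1] at h3
    rw [hcard, ← h3]
    refine Finset.sum_congr rfl fun h _ => ?_
    rw [hσq, hσq, map_inv]
  have hsq : ∑ h : K, σ (h ^ 2) = -(Nat.card K : ℂ) := by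
    have h3 := sum_comp_surj f hf (fun q => quatChar (q ^ 2))
    rw [sum_quat.2] at h3
    rw [hcard]
    have h4 : ∑ h : K, σ (h ^ 2) = ∑ e : K, quatChar (f e ^ 2) :=
      Finset.sum_congr rfl fun h _ => by rw [hσq, map_pow]
    rw [h4, h3]
    ring
  have hV : Virt σ := (theta_virt n).comp K.subtype
  have hσ1 : σ 1 = 2 := by
    change theta n ((1 : K) : G) = 2
    rw [OneMemClass.coe_one, h2]
  have hσ : σ ∈ Irr K := by
    refine irr_of_norm_one hV ?_ (d := 2) (by norm_num) (by rw [hσ1]; norm_num)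
    rw [pr_eq, hnorm, inv_mul_cancel₀ hK]
  have hind : ind σ = -1 := by
    rw [ind, finsum_eq_sum_of_fintype, hsq, neg_div, div_self hK]
  -- the multiplicity
  choose! k hk using fun χ (hχ : χ ∈ Irr G) => mult_even K hχ (horth χ hχ) hσ hind
  have h5 : ∑ h : K, σ h * σ h⁻¹
      = ((2 * ∑ χ ∈ irrF G, n χ * k χ : ℤ) : ℂ) * Nat.card K := by
    have h6 : ∀ h : K, σ h * σ h⁻¹ = ∑ χ ∈ irrF G, (n χ : ℂ) * (χ h * σ h⁻¹) := by
      intro h
      conv_lhs => rw [hσd]
      simp only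
      rw [theta.eq_def n (h : G), Finset.sum_mul]
      exact Finset.sum_congr rfl fun χ _ => by ring
    rw [Finset.sum_congr rfl fun h _ => h6 h, Finset.sum_comm]
    push_cast
    rw [Finset.mul_sum, Finset.sum_mul]
    refine Finset.sum_congr rfl fun χ hχ => ?_
    rw [← Finset.mul_sum, hk χ (mem_irrF.mp hχ)]
    ring
  rw [hnorm] at h5
  have h7 : ((2 * ∑ χ ∈ irrF G, n χ * k χ : ℤ) : ℂ) = 1 := by
    have h8 : ((2 * ∑ χ ∈ irrF G, n χ * k χ : ℤ) : ℂ) * Nat.card K = 1 * Nat.card K := by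
      rw [← h5, one_mul]
    exact mul_right_cancel₀ hK h8
  have h9 : (2 * ∑ χ ∈ irrF G, n χ * k χ : ℤ) = 1 := by exact_mod_cast h7
  omega

end Pool.Agent.U398.Art
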