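import Mathlib
import Pool.Agent.U398.Art.Orth
import Pool.Agent.H302R2.Kernel
import Pool.Agent.H302R2.Index2
import Pool.Agent.H302R2.TransferTwo

/-!
# Degree two Heilbronn functions of determinant one without quaternion restrictions
-/

set_option autoImplicit false
set_option linter.unusedSectionVars false

namespace Pool.Agent.U398.Art

open Pool.Agent.H302R2 Subgroup

variable {G : Type} [Group G] [Finite G]

/-- the normal subgroup generated by the `2`-elements of `N` -/
def twoGen (N : Subgroup G) : Subgroup G := closure {x : G | x ∈ N ∧ ∃ k : ℕ, x ^ (2 ^ k) = 1}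

lemma twoGen_le (N : Subgroup G) : twoGen N ≤ N := by
  rw [twoGen, closure_le]
  exact fun x hx => hx.1

lemma twoGen_normal (N : Subgroup G) [hN : N.Normal] : (twoGen N).Normal := by
  constructor
  intro x hx g
  have h1 : (twoGen N).map (MulAut.conj g).toMonoidHom ≤ twoGen N := by
    rw [twoGen, MonoidHom.map_closure, closure_le]
    rintro _ ⟨y, ⟨hy, k, hk⟩, rfl⟩
    refine subset_closure ⟨hN.conj_mem y hy g, k, ?_⟩
    change (g * y * g⁻¹) ^ (2 ^ k) = 1
    rw [conj_pow, hk, mul_one, mul_inv_cancel]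
  exact h1 ⟨x, hx, rfl⟩

/-- `θ = 2` on the subgroup generated by the `2`-elements of `N` if it is so on these elements -/
lemma twoGen_const {θ : G → ℂ} (hθ : IsHeilbronn θ) (h1 : θ 1 = 2) (N : Subgroup G)
    (h : ∀ x ∈ N, ∀ k : ℕ, x ^ (2 ^ k) = 1 → θ x = 2) : ∀ x ∈ twoGen N, θ x = 2 := by
  intro x hx
  have h2 := kernel_two (G := twoGen N) (θ := fun y => θ y) (hθ.comp (twoGen N).subtype)
    (by simpa using h1) ?_ ?_ ⟨x, hx⟩
  · exact h2
  · rw [eq_top_iff]
    have h3 : closure ((fun x : twoGen N => (x : G)) ⁻¹'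
        {x : G | x ∈ N ∧ ∃ k : ℕ, x ^ (2 ^ k) = 1}) = ⊤ :=
      closure_closure_coe_preimage (k := {x : G | x ∈ N ∧ ∃ k : ℕ, x ^ (2 ^ k) = 1})
    refine le_trans h3.ge (closure_mono ?_)
    rintro ⟨y, hy⟩ ⟨-, k, hk⟩
    exact ⟨k, Subtype.ext hk⟩
  · rintro ⟨y, hy⟩ k hk
    exact h y (twoGen_le N hy) k (congrArg Subtype.val hk)

lemma odd_quotient (N : Subgroup G) [N.Normal] :
    Odd (Nat.card (N ⧸ (twoGen N).subgroupOf N)) := by
  classical
  by_contra hcon
  rw [Nat.not_odd_iff_even] at hcon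
  have : Fact (Nat.Prime 2) := ⟨Nat.prime_two⟩
  have hn : (twoGen N).Normal := twoGen_normal N
  obtain ⟨q, hq⟩ := exists_prime_orderOf_dvd_card' 2 hcon.two_dvd
  induction q using QuotientGroup.induction_on with | _ x => ?_
  obtain ⟨a, m, hm, ham⟩ := Nat.exists_eq_two_pow_mul_odd (orderOf_pos (x : N)).ne'
  have h1 : ((x ^ m : N) : N ⧸ (twoGen N).subgroupOf N) = 1 := by
    rw [QuotientGroup.eq_one_iff, mem_subgroupOf]
    refine subset_closure ⟨(x ^ m).2, a, ?_⟩
    have h2 : (x ^ m) ^ (2 ^ a) = 1 := by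
      rw [← pow_mul, mul_comm, ← ham, pow_orderOf_eq_one]
    exact congrArg Subtype.val h2
  rw [QuotientGroup.mk_pow] at h1
  have h2 := orderOf_dvd_of_pow_eq_one h1
  rw [hq] at h2
  obtain ⟨j, hj⟩ := hm
  omega

/-- **Gluing.** -/
theorem glue {θ : G → ℂ} (hθ : IsHeilbronn θ) (h1 : θ 1 = 2) (hd : ∀ g, dd θ g = 1)
    (hQF : QF θ) (hreal : ∀ g, θ g⁻¹ = θ g) :
    Split θ ∨ ∑ᶠ g : G, θ g * θ g⁻¹ = Nat.card G := by
  classical
  have : Fintype G := Fintype.ofFinite G
  have : Fact (Nat.Prime 2) := ⟨Nat.prime_two⟩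
  obtain ⟨P⟩ : Nonempty (Sylow 2 G) := inferInstance
  have hs : Split (fun x : P => θ x) :=
    two_group_split _ P rfl P.isPGroup' _ (hQF.sub (P : Subgroup G).subtype Subtype.val_injective)
      (hθ.comp (P : Subgroup G).subtype) (by simpa using h1) (fun g => hd g)
  obtain ⟨φ, hφ, a, ha⟩ := exists_two_transfer hθ hd P hs
  let N : Subgroup G := φ.ker
  have hNn : N.Normal := inferInstance
  have hN2 : ∀ x ∈ N, ∀ k : ℕ, x ^ (2 ^ k) = 1 → θ x = 2 := fun x hx k hk =>
    (hφ x k hk).mp hx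
  have hT2 := twoGen_const hθ h1 N hN2
  have hTn : (twoGen N).Normal := twoGen_normal N
  let T : Subgroup N := (twoGen N).subgroupOf N
  have hTN : T.Normal := inferInstance
  have hθN : IsHeilbronn (fun x : N => θ x) := hθ.comp N.subtype
  have hθN1 : (fun x : N => θ x) 1 = 2 := by simpa using h1
  have hcos : ∀ g : N, ∀ n ∈ T, θ ((g * n : N) : G) = θ g := fun g n hn =>
    hθN.const_on_cosets hθN1 T (fun m hm => hT2 m hm) g hn
  have hdes := hθN.descend T hcos
  have hsplit := odd_split _ (N ⧸ T) rfl (odd_quotient N) (descend T fun x : N => θ x) hdes (by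
    have := descend_mk (θ := fun x : N => θ x) hcos 1
    rw [QuotientGroup.mk_one] at this
    rw [this]; exact hθN1)
  obtain ⟨ψ1, ψ2, hψ⟩ := hsplit
  set m := Nat.card (N ⧸ T) with hm
  have hmodd : Odd m := odd_quotient N
  let ψ : N →* ℂˣ := ψ1.comp (QuotientGroup.mk' T)
  let ψ' : N →* ℂˣ := ψ2.comp (QuotientGroup.mk' T)
  have hψN : ∀ x : N, θ x = ((ψ x : ℂˣ) : ℂ) + ((ψ' x : ℂˣ) : ℂ) := by
    intro x
    have h2 := hψ (QuotientGroup.mk x)
    rw [descend_mk (θ := fun x : N => θ x) hcos x] at h2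
    exact h2
  have hprod : ∀ x : N, ψ x * ψ' x = 1 := by
    intro x
    apply Units.ext
    have h2 := dd_of_sum hψN x
    rw [Units.val_mul, ← h2]
    exact hd x
  have hψ'inv : ∀ x : N, ψ' x = (ψ x)⁻¹ := fun x => eq_inv_of_mul_eq_one_right (hprod x)
  have hodd : ∀ x : N, ψ x ^ m = 1 := by
    intro x
    change ψ1 (QuotientGroup.mk x) ^ m = 1
    rw [← map_pow, hm, pow_card_eq_one', map_one]
  have hθψ : ∀ x : N, θ x = ((ψ x : ℂˣ) : ℂ) + (((ψ x)⁻¹ : ℂˣ) : ℂ) := fun x => by
    rw [hψN, hψ'inv]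
  by_cases hψ1 : ψ = 1
  · -- the quotient is abelian
    left
    refine hθ.split_of_quotient h1 N ?_ ?_
    · intro x y
      induction x using QuotientGroup.induction_on with | _ x => ?_
      induction y using QuotientGroup.induction_on with | _ y => ?_
      rw [← QuotientGroup.mk_mul, ← QuotientGroup.mk_mul, QuotientGroup.eq]
      change φ ((x * y)⁻¹ * (y * x)) = 1
      rw [map_mul, map_inv, map_mul, map_mul, mul_comm (φ y), inv_mul_cancel]
    · have h2 : ∀ n : N, θ n = 2 := fun n => by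
        rw [hθψ, hψ1]; simp; norm_num
      rw [finsum_congr h2, finsum_eq_sum_of_fintype, Finset.sum_const, Finset.card_univ,
        nsmul_eq_mul]
      have : (Fintype.card N : ℂ) ≠ 0 := by exact_mod_cast Fintype.card_ne_zero
      exact mul_ne_zero this two_ne_zero
  -- `ψ` is not its own inverse
  have hne : ψ ≠ ψ⁻¹ := by
    intro h2
    apply hψ1
    ext x
    have h3 : ψ x = (ψ x)⁻¹ := DFunLike.congr_fun h2 x
    have h4 : ψ x = 1 := eq_one_of_pow_coprime (m := 2) (n := m)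
      (Nat.coprime_two_left.mpr hmodd) (by
        rw [sq]
        nth_rewrite 1 [h3]
        exact inv_mul_cancel _) (hodd x)
    rw [h4]; rfl
  have hact : ∀ g : G, (∀ x : N, ψ (MulAut.conjNormal g x) = ψ x) ∨
      (∀ x : N, ψ (MulAut.conjNormal g x) = (ψ x)⁻¹) := by
    intro g
    have hmul : ∀ x ∈ N, ∀ y ∈ N, extFun ψ (x * y) = extFun ψ x * extFun ψ y :=
      fun x hx y hy => extFun_mul ψ x hx y hy
    rcases pair_action hθ.conj (Q := N) (f := extFun ψ) hmul
      (fun x hx => by rw [extFun_mem ψ hx]; exact hθψ ⟨x, hx⟩) (g := g)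
      (by rw [normalizer_eq_top]; exact mem_top g) with h2 | h2
    · left
      intro x
      have h3 := h2 x x.2
      rw [extFun_mem ψ x.2, extFun_mem ψ (hNn.conj_mem x x.2 g)] at h3
      exact h3
    · right
      intro x
      have h3 := h2 x x.2
      rw [extFun_mem ψ x.2, extFun_mem ψ (hNn.conj_mem x x.2 g)] at h3
      exact h3
  by_cases hall : ∀ (g : G) (x : N), ψ (MulAut.conjNormal g x) = ψ x
  · left
    exact hθ.split_of_normal h1 N ψ ψ⁻¹ hθψ hne hall
  right
  push Not at hall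
  obtain ⟨g₀, x₀, hx₀⟩ := hall
  -- the stabilizer
  let K : Subgroup G :=
    { carrier := {g | ∀ x : N, ψ (MulAut.conjNormal g x) = ψ x}
      one_mem' := fun x => by simp
      mul_mem' := by
        intro g h hg hh x
        rw [map_mul, MulAut.mul_apply, hg, hh]
      inv_mem' := by
        intro g hg x
        have h2 := hg (MulAut.conjNormal g⁻¹ x)
        rw [← MulAut.mul_apply, ← map_mul, mul_inv_cancel, map_one, MulAut.one_apply] at h2
        exact h2.symm }
  have hKmem : ∀ g, g ∈ K ↔ ∀ x : N, ψ (MulAut.conjNormal g x) = ψ x := fun g => Iff.rfl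
  have hinv : ∀ g, g ∉ K → ∀ x : N, ψ (MulAut.conjNormal g x) = (ψ x)⁻¹ := fun g hg =>
    (hact g).resolve_left hg
  have hg₀ : g₀ ∉ K := fun h => hx₀ (h x₀)
  have hmulK : ∀ g h, g ∉ K → h ∉ K → g * h ∈ K := by
    intro g h hg hh x
    rw [map_mul, MulAut.mul_apply, hinv g hg, hinv h hh, inv_inv]
  have hNK : N ≤ K := by
    intro n hn x
    have h2 : MulAut.conjNormal n x = (⟨n, hn⟩ : N) * x * (⟨n, hn⟩ : N)⁻¹ := by
      apply Subtype.ext
      rw [MulAut.conjNormal_apply]
      rfl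
    rw [h2, map_mul, map_mul, map_inv, mul_comm (ψ _) (ψ x), mul_inv_cancel_right]
  -- the kernel of `ψ` in `G`
  let T1 : Subgroup G := ψ.ker.map N.subtype
  have hT1mem : ∀ x : N, (x : G) ∈ T1 ↔ ψ x = 1 := by
    intro x
    constructor
    · rintro ⟨y, hy, hyx⟩
      have : y = x := Subtype.ext hyx
      rw [← this]; exact hy
    · intro h2
      exact ⟨x, h2, rfl⟩
  have hT1n : T1.Normal := by
    constructor
    rintro _ ⟨y, hy, rfl⟩ g
    have h2 : ψ (MulAut.conjNormal g y) = 1 := by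
      rcases hact g with h3 | h3
      · rw [h3]; exact hy
      · rw [h3, show ψ y = 1 from hy, inv_one]
    exact ⟨MulAut.conjNormal g y, h2, MulAut.conjNormal_apply g y⟩
  have hT12 : ∀ n ∈ T1, θ n = 2 := by
    rintro _ ⟨y, hy, rfl⟩
    change θ y = 2
    rw [hθψ, show ψ y = 1 from hy]
    norm_num
  have hcos1 : ∀ (g : G) {n : G}, n ∈ T1 → θ (g * n) = θ g := fun g n hn =>
    hθ.const_on_cosets h1 T1 hT12 g hn
  -- the values outside `K` vanish
  have hzero : ∀ g, g ∉ K → θ g = 0 := by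
    intro g hg
    have hconst : ∀ n : N, θ (g * n) = θ g := by
      intro n
      obtain ⟨j, hj⟩ := hmodd
      let c : N := n ^ (j + 1)
      have hc : ψ c ^ 2 = ψ n := by
        rw [← map_pow, ← pow_mul, show (j + 1) * 2 = m + 1 by omega, map_pow, pow_succ, hodd,
          one_mul]
      let w : N := MulAut.conjNormal g⁻¹ c⁻¹ * c
      have hgi : g⁻¹ ∉ K := fun h2 => hg (by simpa using K.inv_mem h2)
      have hw : ψ w = ψ n := by
        rw [map_mul, hinv g⁻¹ hgi, map_inv, inv_inv, ← sq, hc]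
      have h2 : θ (g * w) = θ g := by
        have h3 := hθ.conj g ((c : G)⁻¹)
        rw [← h3]
        congr 1
        change g * ((MulAut.conjNormal g⁻¹ c⁻¹ : N) * c : G) = _
        rw [MulAut.conjNormal_apply]
        simp only [inv_inv, InvMemClass.coe_inv]
        group
      have h3 : g * (n : G) = (g * w) * ((w⁻¹ * n : N) : G) := by
        rw [mul_assoc, ← Subgroup.coe_mul, mul_inv_cancel_left]
      rw [h3, hcos1 (g * w) ((hT1mem _).mpr (by rw [map_mul, map_inv, hw, inv_mul_cancel])), h2]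
    have hψi : ψ⁻¹ ≠ 1 := by
      intro h2
      apply hψ1
      ext x
      have h3 : (ψ x)⁻¹ = 1 := DFunLike.congr_fun h2 x
      rw [inv_eq_one.mp h3]; rfl
    have hsum : ∑ᶠ n : N, θ n = 0 := by
      have e1 : ∀ n : N, θ n = ((ψ n : ℂˣ) : ℂ) + ((ψ⁻¹ n : ℂˣ) : ℂ) := fun n => hθψ n
      rw [finsum_congr e1, finsum_add_distrib (Set.toFinite _) (Set.toFinite _),
        finsum_char_eq_zero ψ hψ1, finsum_char_eq_zero ψ⁻¹ hψi, add_zero]
    have hsum2 := hθ.avg_zero' N hsum (g := g) (by rw [normalizer_eq_top]; exact mem_top g)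
    rw [finsum_congr hconst, finsum_eq_sum_of_fintype, Finset.sum_const, Finset.card_univ,
      nsmul_eq_mul] at hsum2
    have : (Fintype.card N : ℂ) ≠ 0 := by exact_mod_cast Fintype.card_ne_zero
    exact (mul_eq_zero.mp hsum2).resolve_left this
  -- the norm on `K`
  let NK : Subgroup K := N.subgroupOf K
  have hNKn : NK.Normal := inferInstance
  have hθK : IsHeilbronn (fun x : K => θ x) := hθ.comp K.subtype
  let toN : NK →* N :=
    { toFun := fun x => ⟨((x : K) : G), x.2⟩
      map_one' := rfl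
      map_mul' := fun x y => rfl }
  have hKsplit : Split (fun x : K => θ x) := by
    refine hθK.split_of_normal (by simpa using h1) NK (ψ.comp toN) (ψ⁻¹.comp toN) ?_ ?_ ?_
    · intro x
      exact hθψ (toN x)
    · intro h2
      apply hne
      ext x
      have h3 : ψ x = ψ⁻¹ x := DFunLike.congr_fun h2 ⟨⟨(x : G), hNK x.2⟩, x.2⟩
      exact congrArg Units.val h3
    · intro g x
      have h2 := g.2 (toN x)
      exact h2
  obtain ⟨α, β, hαβ⟩ := hKsplit
  have : Fintype K := Fintype.ofFinite K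
  have hprodK : ∀ x : K, α x * β x = 1 := by
    intro x
    apply Units.ext
    have h2 := dd_of_sum hαβ x
    rw [Units.val_mul, ← h2]
    exact hd x
  have hα2 : α * α ≠ 1 := by
    intro h2
    apply hne
    ext x
    let y : K := ⟨(x : G), hNK x.2⟩
    have h3 : α y * α y = 1 := DFunLike.congr_fun h2 y
    have h4 : β y = α y := by
      have h5 := hprodK y
      rw [← h3] at h5
      exact mul_left_cancel h5
    have h5 : θ x = ((α y : ℂˣ) : ℂ) + ((α y : ℂˣ) : ℂ) := by
      have h6 := hαβ y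
      rw [h4] at h6
      exact h6
    have h6 := hθψ x
    have h7 : ‖((ψ x : ℂˣ) : ℂ)‖ = 1 := norm_char ψ x
    have h8 : ‖(((ψ x)⁻¹ : ℂˣ) : ℂ)‖ = 1 := by
      rw [Units.val_inv_eq_inv_val, norm_inv, h7, inv_one]
    obtain ⟨h9, h10⟩ := norm_avg_eq h7 h8 (norm_char α y) (by rw [← h6, h5]; ring)
    rw [h9, MonoidHom.inv_apply, h10]
  have hKsum : ∑ x : K, θ x * θ (x⁻¹ : K) = 2 * Nat.card K := by
    have h2 : ∀ x : K, θ x * θ (x⁻¹ : K) = 2 + (((α * α) x : ℂˣ) : ℂ) + (((α * α)⁻¹ x : ℂˣ) : ℂ) := by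
      intro x
      have h3 : β x = (α x)⁻¹ := eq_inv_of_mul_eq_one_right (hprodK x)
      have h5 : θ x = ((α x : ℂˣ) : ℂ) + ((β x : ℂˣ) : ℂ) := hαβ x
      have h6 : θ (x⁻¹ : K) = ((α x⁻¹ : ℂˣ) : ℂ) + ((β x⁻¹ : ℂˣ) : ℂ) := hαβ x⁻¹
      rw [h5, h6, map_inv, map_inv, h3, inv_inv]
      simp only [MonoidHom.mul_apply, MonoidHom.inv_apply, mul_inv]
      push_cast
      have h4 : ((α x : ℂˣ) : ℂ) ≠ 0 := Units.ne_zero _
      field_simp
      ring
    have hα2' : (α * α)⁻¹ ≠ 1 := by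
      intro h3
      apply hα2
      ext x
      have h4 : ((α * α) x)⁻¹ = 1 := DFunLike.congr_fun h3 x
      rw [inv_eq_one.mp h4]; rfl
    rw [Finset.sum_congr rfl fun x _ => h2 x, Finset.sum_add_distrib, Finset.sum_add_distrib,
      ← finsum_eq_sum_of_fintype (fun x : K => (((α * α) x : ℂˣ) : ℂ)),
      ← finsum_eq_sum_of_fintype (fun x : K => (((α * α)⁻¹ x : ℂˣ) : ℂ)),
      finsum_char_eq_zero _ hα2, finsum_char_eq_zero _ hα2', Finset.sum_const, Finset.card_univ,
      ← Nat.card_eq_fintype_card, nsmul_eq_mul]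
    ring
  -- the index is two
  have hindex : Nat.card G = 2 * Nat.card K := by
    have h2 := K.card_mul_index
    have h3 : K.index = 2 := by
      rw [index_eq_two_iff]
      refine ⟨g₀, fun b => ?_⟩
      by_cases hb : b ∈ K
      · right
        refine ⟨hb, fun h4 => hg₀ ?_⟩
        have h5 := K.mul_mem (K.inv_mem hb) h4
        rwa [inv_mul_cancel_left] at h5
      · left
        exact ⟨hmulK b g₀ hb hg₀, hb⟩
    rw [← h2, h3, mul_comm]
  rw [finsum_eq_sum_of_fintype]
  have h2 : ∑ g : G, θ g * θ g⁻¹ = ∑ g ∈ Finset.univ.filter (· ∈ K), θ g * θ g⁻¹ := by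
    rw [Finset.sum_filter]
    refine Finset.sum_congr rfl fun g _ => ?_
    split_ifs with h3
    · rfl
    · rw [hzero g h3, zero_mul]
  have h3 : ∑ g ∈ Finset.univ.filter (· ∈ K), θ g * θ g⁻¹ = ∑ x : K, θ x * θ (x⁻¹ : K) := by
    rw [Finset.sum_subtype (p := (· ∈ K)) _ (fun x => by simp)]
    rfl
  rw [h2, h3, hKsum, hindex]
  push_cast
  ring

end Pool.Agent.U398.Art
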