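import Mathlib
import Pool.Agent.U398.Art.Central

/-!
# Zeros of order two of the top zeta function at the central point
-/

set_option autoImplicit false
set_option linter.unusedSectionVars false

namespace Pool.Agent.U398.Art

open Pool.Agent.H302R2 Pool.Agent.H541R3.ART Filter Topology

variable {G : Type} [Group G] [Finite G] {s₀ : ℂ}

/-- the irreducible characters whose L-function has a pole at `s₀` -/
def Poles (A : ArtinData G s₀) : Set (G → ℂ) := {χ | χ ∈ Irr G ∧ meromorphicOrderAt (A.L χ) s₀ < 0}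

lemma poles_eq (A : ArtinData G s₀) : Poles A = {χ | χ ∈ Irr G ∧ A.ord χ < 0} := by
  ext χ
  constructor
  · rintro ⟨h1, h2⟩
    refine ⟨h1, ?_⟩
    rw [← A.coe_ord h1] at h2
    exact_mod_cast h2
  · rintro ⟨h1, h2⟩
    refine ⟨h1, ?_⟩
    rw [← A.coe_ord h1]
    exact_mod_cast h2

/-- **The structure at a central zero of order two.** -/
theorem central_two (A : ArtinData G s₀) (hA : Central A)
    (hr : meromorphicOrderAt (A.Lin ⊥ 1) s₀ = ((2 : ℕ) : WithTop ℤ)) :
    (∀ ψ ∈ Poles A, ind ψ = -1 ∧ meromorphicOrderAt (A.L ψ) s₀ = ((-1 : ℤ) : WithTop ℤ)) ∧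
    ∃ χ ∈ Irr G, 0 < meromorphicOrderAt (A.L χ) s₀ ∧
      (∀ ψ ∈ Irr G, ψ ≠ χ → ψ ≠ (fun g => χ g⁻¹) → meromorphicOrderAt (A.L ψ) s₀ ≤ 0) ∧
      ((ind χ = 1 ∧ χ 1 = 1 ∧ meromorphicOrderAt (A.L χ) s₀ = ((2 : ℤ) : WithTop ℤ) ∧
          Poles A = ∅) ∨
        (ind χ = 0 ∧ meromorphicOrderAt (A.L χ) s₀ = ((1 : ℤ) : WithTop ℤ) ∧
          (Poles A).ncard ≤ 1 ∧ (Poles A = ∅ → χ 1 = 1)) ∨
        (ind χ = -1 ∧ meromorphicOrderAt (A.L χ) s₀ = ((1 : ℤ) : WithTop ℤ) ∧
          (Poles A).ncard ≤ 2 ∧ (Poles A = ∅ → χ 1 = 2))) := by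
  classical
  obtain ⟨ν, h⟩ := cTwo A hA hr
  constructor
  · rintro ψ hψ
    rw [poles_eq] at hψ
    obtain ⟨h1, h2⟩ := h.neg hψ.1 hψ.2
    refine ⟨by rw [h.ind ψ hψ.1, h1]; simp, by rw [← A.coe_ord hψ.1, h2]⟩
  · obtain ⟨χ, hχ, hpos⟩ := h.exists_pos
    obtain ⟨h1, h2, h3⟩ := h.structure' hχ hpos
    obtain ⟨h4, h5, h6⟩ := h.card_neg hχ hpos
    refine ⟨χ, hχ, ?_, ?_, ?_⟩
    · rw [← A.coe_ord hχ]; exact_mod_cast hpos
    · intro ψ hψ h7 h8
      rw [← A.coe_ord hψ]
      have h9 : A.ord ψ ≤ 0 := by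
        rcases h3 ψ hψ h7 h8 with h10 | h10 <;> omega
      exact_mod_cast h9
    · rw [poles_eq]
      have hnn : {χ | χ ∈ Irr G ∧ A.ord χ < 0} = ∅ → ∀ ψ ∈ Irr G, 0 ≤ A.ord ψ := by
        intro h7 ψ hψ
        by_contra hcon
        push Not at hcon
        have h8 : ψ ∈ {χ | χ ∈ Irr G ∧ A.ord χ < 0} := ⟨hψ, hcon⟩
        rw [h7] at h8
        exact h8
      rcases h.cases χ hχ with ⟨h7, h8⟩ | ⟨h7 | h7, h8⟩
      · right; left
        refine ⟨by rw [h.ind χ hχ, h7]; simp, by rw [← A.coe_ord hχ, h2 (by omega)], h5 h7,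
          fun h9 => h.linear_of_nonneg (hnn h9) hχ (by omega) (by omega)⟩
      · left
        have h9 := h4 h7
        have h10 : {χ | χ ∈ Irr G ∧ A.ord χ < 0} = ∅ := by
          ext ψ
          simp only [Set.mem_ofPred_eq, Set.mem_empty_iff_false, iff_false, not_and, not_lt]
          exact h9 ψ
        refine ⟨by rw [h.ind χ hχ, h7]; simp, h.linear_of_nonneg h9 hχ (by omega) (by omega),
          by rw [← A.coe_ord hχ, h1 h7], h10⟩
      · right; right
        refine ⟨by rw [h.ind χ hχ, h7]; simp, by rw [← A.coe_ord hχ, h2 (by omega)], h6, ?_⟩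
        intro h9
        have h10 := hnn h9
        -- all other multiplicities vanish
        have h11 : ∀ ψ ∈ irrF G, ψ ≠ χ → A.ord ψ = 0 := by
          intro ψ hψ hne
          have h12 : ψ ≠ (fun g => χ g⁻¹) := by rw [h8]; exact hne
          rcases h3 ψ (mem_irrF.mp hψ) hne h12 with h13 | ⟨-, h13⟩
          · exact h13
          · have := h10 ψ (mem_irrF.mp hψ)
            omega
        have h12 := h.two
        unfold theta at h12
        rw [Finset.sum_eq_single χ (fun ψ hψ hne => by rw [h11 ψ hψ hne]; simp)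
          (fun hcon => absurd (mem_irrF.mpr hχ) hcon), h2 (by omega)] at h12
        simpa using h12

/-- **No poles of non-symplectic L-functions.** -/
theorem central_small (A : ArtinData G s₀) (hA : Central A) {r : ℕ}
    (hr : meromorphicOrderAt (A.Lin ⊥ 1) s₀ = (r : WithTop ℤ)) (h3 : r ≤ 3) :
    (∀ χ ∈ Irr G, ind χ ≠ -1 → 0 ≤ meromorphicOrderAt (A.L χ) s₀) ∧
    (∀ χ ∈ Irr G, ind χ = 1 → χ 1 ≠ 1 → meromorphicOrderAt (A.L χ) s₀ = 0) ∧
    (Poles A).ncard ≤ 2 ∧
    ((∀ χ ∈ Irr G, ind χ = -1 →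
        ∃ k : ℤ, meromorphicOrderAt (A.L χ) s₀ = ((2 * k : ℤ) : WithTop ℤ)) →
      ∀ χ ∈ Irr G, 0 ≤ meromorphicOrderAt (A.L χ) s₀ ∧
        (χ 1 ≠ 1 → meromorphicOrderAt (A.L χ) s₀ = 0)) := by
  classical
  have heven := even_top A hA hr
  have hr2 : r = 0 ∨ r = 2 := by
    obtain ⟨k, hk⟩ := heven
    omega
  rcases hr2 with rfl | rfl
  · have h0 : ∀ χ ∈ Irr G, meromorphicOrderAt (A.L χ) s₀ = 0 := by
      intro χ hχ
      rw [← A.coe_ord hχ, ord_zero A hr hχ]; rfl
    refine ⟨fun χ hχ _ => (h0 χ hχ).ge, fun χ hχ _ _ => h0 χ hχ, ?_,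
      fun _ χ hχ => ⟨(h0 χ hχ).ge, fun _ => h0 χ hχ⟩⟩
    have h1 : Poles A = ∅ := by
      ext χ
      simp only [Set.mem_empty_iff_false, iff_false]
      rintro ⟨h1, h2⟩
      rw [h0 χ h1] at h2
      exact lt_irrefl _ h2
    rw [h1]; simp
  · obtain ⟨h1, χ, hχ, hpos, hle, hcases⟩ := central_two A hA hr
    have hnn : ∀ ψ ∈ Irr G, ind ψ ≠ -1 → 0 ≤ meromorphicOrderAt (A.L ψ) s₀ := by
      intro ψ hψ hi
      by_contra hcon
      push Not at hcon
      exact hi (h1 ψ ⟨hψ, hcon⟩).1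
    have hdual : meromorphicOrderAt (A.L fun g => χ g⁻¹) s₀ = meromorphicOrderAt (A.L χ) s₀ :=
      hA.dual χ hχ
    refine ⟨hnn, ?_, ?_, ?_⟩
    · intro ψ hψ hi hne
      by_cases h2 : ψ = χ
      · subst h2
        exfalso
        rcases hcases with h3 | h3 | h3
        · exact hne h3.2.1
        · rw [h3.1] at hi
          norm_num at hi
        · rw [h3.1] at hi
          norm_num at hi
      by_cases h4 : ψ = (fun g => χ g⁻¹)
      · -- self-duality
        exfalso
        obtain ⟨ν, hν, hc⟩ := ind_cases hψ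
        have hν1 : ν = 1 := by
          rw [hi] at hν
          exact_mod_cast hν.symm
        rcases hc with ⟨h5, -⟩ | ⟨-, h5⟩
        · omega
        · apply h2
          funext g
          have h6 := congrFun h5 g⁻¹
          simp only [inv_inv] at h6
          rw [h6, h4]
          simp
      · exact le_antisymm (hle ψ hψ h2 h4) (hnn ψ hψ (by rw [hi]; norm_num))
    · rcases hcases with h3 | h3 | h3
      · rw [h3.2.2.2]; simp
      · exact h3.2.2.1.trans (by norm_num)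
      · exact h3.2.2.1
    · intro hev
      have hP : Poles A = ∅ := by
        ext ψ
        simp only [Set.mem_empty_iff_false, iff_false]
        intro hψ
        obtain ⟨h2, h3⟩ := h1 ψ hψ
        obtain ⟨k, hk⟩ := hev ψ hψ.1 h2
        rw [hk] at h3
        have h4 : (2 * k : ℤ) = -1 := WithTop.coe_injective h3
        omega
      have hnn' : ∀ ψ ∈ Irr G, 0 ≤ meromorphicOrderAt (A.L ψ) s₀ := by
        intro ψ hψ
        by_contra hcon
        push Not at hcon
        have : ψ ∈ Poles A := ⟨hψ, hcon⟩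
        rw [hP] at this
        exact this
      have hχ1 : χ 1 = 1 := by
        rcases hcases with h3 | h3 | h3
        · exact h3.2.1
        · exact h3.2.2.2 hP
        · exfalso
          obtain ⟨k, hk⟩ := hev χ hχ h3.1
          rw [hk] at h3
          have h4 : (2 * k : ℤ) = 1 := WithTop.coe_injective h3.2.1
          omega
      intro ψ hψ
      refine ⟨hnn' ψ hψ, fun hne => ?_⟩
      have h2 : ψ ≠ χ := by rintro rfl; exact hne hχ1
      have h4 : ψ ≠ (fun g => χ g⁻¹) := by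
        rintro rfl
        apply hne
        simpa using hχ1
      exact le_antisymm (hle ψ hψ h2 h4) (hnn' ψ hψ)

end Pool.Agent.U398.Art
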