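import Mathlib
import Pool.Agent.U398.Art.Glue
import Pool.Agent.U398.Art.Main
import Pool.Agent.U398.Art.Double
import Pool.Agent.U398.Art.Alt

/-!
# Groups all whose irreducible characters are orthogonal
-/

set_option autoImplicit false
set_option linter.unusedSectionVars false

namespace Pool.Agent.U398.Art

open Pool.Agent.H302R2 Pool.Agent.H541R3.ART Pool.Agent.W446.AS Filter Topology

variable {G : Type} [Group G] [Finite G]

lemma self_dual {χ : G → ℂ} (hχ : χ ∈ Irr G) (hi : ind χ = 1) (g : G) : χ g⁻¹ = χ g := by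
  obtain ⟨ν, h1, h2⟩ := ind_cases hχ
  rcases h2 with ⟨h3, -⟩ | ⟨-, h3⟩
  · rw [hi, h3] at h1
    norm_num at h1
  · exact congrFun h3 g

lemma theta_real_of_orth (n : (G → ℂ) → ℤ) (horth : ∀ χ ∈ Irr G, ind χ = 1) (g : G) :
    (theta n : G → ℂ) g⁻¹ = (theta n : G → ℂ) g := by
  unfold theta
  exact Finset.sum_congr rfl fun χ hχ => by
    rw [self_dual (mem_irrF.mp hχ) (horth χ (mem_irrF.mp hχ))]

/-- multiplicities of a sum of two linear characters are nonnegative -/
lemma nonneg_of_split (n : (G → ℂ) → ℤ) (hs : Split (theta n : G → ℂ)) {χ : G → ℂ}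
    (hχ : χ ∈ Irr G) : 0 ≤ n χ := by
  classical
  have : Fintype G := Fintype.ofFinite G
  have hG : (Nat.card G : ℂ) ≠ 0 := by exact_mod_cast Nat.card_pos.ne'
  obtain ⟨α, β, h⟩ := hs
  obtain ⟨a, ha⟩ := pair_lin hχ α
  obtain ⟨b, hb⟩ := pair_lin hχ β
  have h1 := theta_pair n hχ
  have h2 : ∑ g : G, (theta n : G → ℂ) g * χ g⁻¹ = ((a + b : ℕ) : ℂ) * Nat.card G := by
    push_cast
    rw [add_mul, ← ha, ← hb, ← Finset.sum_add_distrib]
    exact Finset.sum_congr rfl fun g _ => by rw [h g]; ring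
  rw [h2] at h1
  have h3 := mul_right_cancel₀ hG h1
  have h4 : ((a + b : ℕ) : ℤ) = n χ := by exact_mod_cast h3
  rw [← h4]
  exact Int.natCast_nonneg _

/-- **Heilbronn functions of degree two are characters** for the groups all whose irreducible
characters are orthogonal. -/
theorem orth_nonneg (n : (G → ℂ) → ℤ) (hθ : IsHeilbronn (theta n : G → ℂ))
    (h2 : (theta n : G → ℂ) 1 = 2) (horth : ∀ χ ∈ Irr G, ind χ = 1) {χ : G → ℂ}
    (hχ : χ ∈ Irr G) : 0 ≤ n χ := by
  classical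
  have : Fintype G := Fintype.ofFinite G
  have hG : (Nat.card G : ℂ) ≠ 0 := by exact_mod_cast Nat.card_pos.ne'
  have hreal := theta_real_of_orth n horth
  obtain ⟨D, hD⟩ := hθ.exists_det h2
  have hν : ∀ χ ∈ Irr G, ∑ g : G, χ (g ^ 2) = (Nat.card G : ℂ) * ((1 : ℤ) : ℂ) := by
    intro χ hχ
    have h3 := horth χ hχ
    rw [ind, finsum_eq_sum_of_fintype, div_eq_iff hG] at h3
    rw [h3]; push_cast; ring
  have hid : (2 : ℂ) * ∑ g : G, ((D g : ℂˣ) : ℂ)
      = (Nat.card G : ℂ) * ((∑ χ ∈ irrF G, (n χ ^ 2 - n χ) : ℤ) : ℂ) := by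
    have h3 := theta_ind n (fun _ => 1) hν
    simp only [one_mul] at h3
    rw [Finset.sum_sub_distrib, Int.cast_sub, mul_sub, ← theta_sq, ← h3,
      Finset.mul_sum, ← Finset.sum_sub_distrib]
    refine Finset.sum_congr rfl fun g _ => ?_
    rw [hD, dd, hreal]
    ring
  have hterm : ∀ x ∈ irrF G, 0 ≤ n x ^ 2 - n x := by
    intro x _
    rcases le_or_gt (n x) 0 with h | h
    · nlinarith
    · nlinarith
  by_cases hD1 : D = 1
  · -- determinant one
    have hd : ∀ g, dd (theta n : G → ℂ) g = 1 := by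
      intro g
      rw [← hD, hD1]; simp
    rcases glue hθ h2 hd (theta_QF n h2 horth) hreal with hs | hnorm
    · exact nonneg_of_split n hs hχ
    · exfalso
      rw [finsum_eq_sum_of_fintype, theta_sq] at hnorm
      have h3 : ∑ χ ∈ irrF G, n χ ^ 2 = 1 := by
        have h4 : (Nat.card G : ℂ) * ((∑ χ ∈ irrF G, n χ ^ 2 : ℤ) : ℂ) = (Nat.card G : ℂ) * 1 := by
          rw [hnorm, mul_one]
        have h5 := mul_left_cancel₀ hG h4
        exact_mod_cast h5
      have h4 : ∑ χ ∈ irrF G, (n χ ^ 2 - n χ) = 2 := by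
        rw [hD1] at hid
        simp only [MonoidHom.one_apply, Units.val_one, Finset.sum_const, Finset.card_univ,
          nsmul_eq_mul, mul_one] at hid
        rw [← Nat.card_eq_fintype_card, mul_comm (2 : ℂ)] at hid
        have h5 := mul_left_cancel₀ hG hid
        exact_mod_cast h5.symm
      choose! d hd0 hd1 using fun χ (hχ : χ ∈ Irr G) => irr_deg_pos hχ
      have h5 : ∑ χ ∈ irrF G, n χ * d χ = 2 := by
        have h6 := h2
        unfold theta at h6
        have h7 : ∑ χ ∈ irrF G, (n χ : ℂ) * χ 1 = ((∑ χ ∈ irrF G, n χ * d χ : ℤ) : ℂ) := by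
          push_cast
          exact Finset.sum_congr rfl fun χ hχ => by rw [hd1 χ (mem_irrF.mp hχ)]
        rw [h7] at h6
        exact_mod_cast h6
      obtain ⟨x, hx, hxpos⟩ : ∃ x ∈ irrF G, 0 < n x := by
        by_contra hcon
        push Not at hcon
        have h6 : ∑ χ ∈ irrF G, n χ * d χ ≤ 0 := Finset.sum_nonpos fun χ hχ => by
          have h3 := hcon χ hχ
          have h4 : (0 : ℤ) ≤ d χ := Int.natCast_nonneg _
          nlinarith
        omega
      have h6 := Finset.add_sum_erase (irrF G) (fun y => n y ^ 2) hx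
      rw [h3] at h6
      have h7 : 0 ≤ ∑ y ∈ (irrF G).erase x, n y ^ 2 := Finset.sum_nonneg fun _ _ => sq_nonneg _
      have h8 : n x = 1 := by
        nlinarith
      have h9 : ∑ y ∈ (irrF G).erase x, n y ^ 2 = 0 := by
        rw [h8] at h6
        linarith
      have h10 : ∀ y ∈ irrF G, y ≠ x → n y = 0 := by
        intro y hy hne
        have := (Finset.sum_eq_zero_iff_of_nonneg fun _ _ => sq_nonneg _).mp h9 y
          (Finset.mem_erase.mpr ⟨hne, hy⟩)
        exact pow_eq_zero_iff (two_ne_zero) |>.mp this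
      rw [Finset.sum_eq_single x (fun y hy hne => by rw [h10 y hy hne]; norm_num)
        (fun h => absurd hx h), h8] at h4
      norm_num at h4
  · have h3 : ∑ g : G, ((D g : ℂˣ) : ℂ) = 0 := by
      rw [← finsum_eq_sum_of_fintype]
      exact finsum_char_eq_zero D hD1
    rw [h3, mul_zero] at hid
    have h4 := (mul_eq_zero.mp hid.symm).resolve_left hG
    have h5 : ∑ χ ∈ irrF G, (n χ ^ 2 - n χ) = 0 := by exact_mod_cast h4
    have h6 := (Finset.sum_eq_zero_iff_of_nonneg hterm).mp h5 χ (mem_irrF.mpr hχ)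
    have h7 : n χ = n χ ^ 2 := by linarith
    rw [h7]
    exact sq_nonneg _

/-- the degrees which occur are small if all multiplicities are nonnegative -/
lemma deg_le (n : (G → ℂ) → ℤ) {r : ℕ} (hr : (theta n : G → ℂ) 1 = r)
    (hnn : ∀ χ ∈ Irr G, 0 ≤ n χ) {χ : G → ℂ} (hχ : χ ∈ Irr G) :
    ∃ d : ℕ, χ 1 = d ∧ n χ * d ≤ r := by
  classical
  choose! d hd0 hd1 using fun χ (hχ : χ ∈ Irr G) => irr_deg_pos hχ
  refine ⟨d χ, hd1 χ hχ, ?_⟩
  have h5 : ∑ χ ∈ irrF G, n χ * d χ = r := by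
    have h6 := hr
    unfold theta at h6
    have h7 : ∑ χ ∈ irrF G, (n χ : ℂ) * χ 1 = ((∑ χ ∈ irrF G, n χ * d χ : ℤ) : ℂ) := by
      push_cast
      exact Finset.sum_congr rfl fun χ hχ => by rw [hd1 χ (mem_irrF.mp hχ)]
    rw [h7] at h6
    exact_mod_cast h6
  rw [← h5]
  exact Finset.single_le_sum (f := fun χ => n χ * (d χ : ℤ))
    (fun x hx => mul_nonneg (hnn x (mem_irrF.mp hx)) (Int.natCast_nonneg _)) (mem_irrF.mpr hχ)

variable {s₀ : ℂ}

/-- order at most two -/
theorem orth_small (B : ArtinData G s₀) (horth : ∀ χ ∈ Irr G, ind χ = 1) {k : ℕ}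
    (hk : meromorphicOrderAt (B.Lin ⊥ 1) s₀ = (k : WithTop ℤ)) (hk2 : k ≤ 2) :
    ∀ χ ∈ Irr G, 0 ≤ B.ord χ := by
  classical
  have : Fintype G := Fintype.ofFinite G
  have hG : (Nat.card G : ℂ) ≠ 0 := by exact_mod_cast Nat.card_pos.ne'
  have h1 := B.theta_one hk
  intro χ hχ
  interval_cases k
  · rw [ord_zero B (by simpa using hk) hχ]
  · obtain ⟨α, hα⟩ := B.isHeilbronn.deg_one (by rw [h1]; norm_num)
    obtain ⟨a, ha⟩ := pair_lin hχ α
    have h3 := theta_pair B.ord hχ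
    simp only [hα] at h3
    rw [ha] at h3
    have h4 := mul_right_cancel₀ hG h3
    have h5 : (a : ℤ) = B.ord χ := by exact_mod_cast h4
    rw [← h5]
    exact Int.natCast_nonneg _
  · exact orth_nonneg B.ord B.isHeilbronn (by rw [h1]; norm_num) horth hχ

/-- **Central point, orthogonal groups.** -/
theorem central_orth (A : ArtinData G s₀) (hA : Central A) (horth : ∀ χ ∈ Irr G, ind χ = 1)
    {r : ℕ} (hr : meromorphicOrderAt (A.Lin ⊥ 1) s₀ = (r : WithTop ℤ)) (h5 : r ≤ 5) :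
    ∀ χ ∈ Irr G, 0 ≤ meromorphicOrderAt (A.L χ) s₀ ∧
      (meromorphicOrderAt (A.L χ) s₀ ≠ 0 → χ 1 = 1 ∨ χ 1 = 2) := by
  classical
  obtain ⟨B, hB, hBlin⟩ := exists_half A (fun χ hχ => hA.orth χ hχ (horth χ hχ))
  obtain ⟨k, hk, hk2⟩ := hBlin ⊥ 1
  have hrk : (r : ℤ) = 2 * k := by
    have h1 : (((r : ℤ)) : WithTop ℤ) = ((2 * k : ℤ) : WithTop ℤ) := by
      rw [← hk2, hr]; rfl
    exact WithTop.coe_injective h1
  have hk0 : 0 ≤ k := by omega
  obtain ⟨j, rfl⟩ := Int.eq_ofNat_of_zero_le hk0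
  have hj : meromorphicOrderAt (B.Lin ⊥ 1) s₀ = (j : WithTop ℤ) := by rw [hk]; rfl
  have hnn := orth_small B horth hj (by omega)
  intro χ hχ
  obtain ⟨l, hl, hl2⟩ := hB χ hχ
  have hord : B.ord χ = l := by
    have h1 := B.coe_ord hχ
    rw [hl] at h1
    exact WithTop.coe_injective h1
  have h1 := hnn χ hχ
  rw [hord] at h1
  refine ⟨by rw [hl2]; exact_mod_cast (by omega : (0 : ℤ) ≤ 2 * l), fun hne => ?_⟩
  have hl0 : l ≠ 0 := by
    rintro rfl
    apply hne
    rw [hl2]; rfl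
  obtain ⟨d, hd, hdle⟩ := deg_le B.ord (B.theta_one hj) hnn hχ
  rw [hord] at hdle
  obtain ⟨d', hd'0, hd'⟩ := irr_deg_pos hχ
  have hdd : d = d' := by
    rw [hd] at hd'
    exact_mod_cast hd'
  have hl1 : 1 ≤ l := by omega
  have h6 : (d : ℤ) ≤ 2 := by
    have h7 : (j : ℤ) ≤ 2 := by omega
    have h8 : (d : ℤ) ≤ l * d := by nlinarith [Int.natCast_nonneg d]
    linarith
  have h7 : d = 1 ∨ d = 2 := by omega
  rcases h7 with h7 | h7
  · left; rw [hd, h7]; norm_num
  · right; rw [hd, h7]; norm_num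

end Pool.Agent.U398.Art
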